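import Pool.Agent.Lib.MP_25e40f_pr.A.Bas

/-!
# Stream A, job Prb: probabilities `Pr p E A = EE p E (ind A)` (about 150 lines)

Everything is a consequence of `A.Bas` applied to indicators: `ind P = if P then 1 else 0` (classical), `0 ≤ ind P ≤ 1`, `ind (P ∧ Q) = ind P * ind Q`,
`ind P ≤ ind Q` if `P → Q`, `ind (∃ k ∈ s, P k) ≤ ∑ k ∈ s, ind (P k)`, with equality if the `P k` are pairwise exclusive.
-/

set_option autoImplicit false

noncomputable section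

open Finset

namespace IPC

variable {ε : Type} [DecidableEq ε]

theorem ind_nonneg (P : Prop) : 0 ≤ ind P := by
  unfold ind
  split_ifs <;> norm_num

theorem ind_le_one (P : Prop) : ind P ≤ 1 := by
  unfold ind
  split_ifs <;> norm_num

theorem ind_of {P : Prop} (h : P) : ind P = 1 := by
  unfold ind
  rw [if_pos h]

theorem ind_not {P : Prop} (h : ¬ P) : ind P = 0 := by
  unfold ind
  rw [if_neg h]

theorem ind_and (P Q : Prop) : ind (P ∧ Q) = ind P * ind Q := by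
  by_cases hP : P
  · by_cases hQ : Q
    · rw [ind_of (And.intro hP hQ), ind_of hP, ind_of hQ, mul_one]
    · rw [ind_not (fun h : P ∧ Q => hQ h.2), ind_not hQ, mul_zero]
  · rw [ind_not (fun h : P ∧ Q => hP h.1), ind_not hP, zero_mul]

theorem ind_mono {P Q : Prop} (h : P → Q) : ind P ≤ ind Q := by
  by_cases hP : P
  · rw [ind_of hP, ind_of (h hP)]
  · rw [ind_not hP]
    exact ind_nonneg Q

theorem ind_compl (P : Prop) : ind (¬ P) = 1 - ind P := by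
  by_cases hP : P
  · rw [ind_of hP, ind_not (fun h : ¬ P => h hP), sub_self]
  · rw [ind_not hP, ind_of hP, sub_zero]

theorem Pr_nonneg {p : ℝ} (hp0 : 0 ≤ p) (hp1 : p ≤ 1) (E : Finset ε) (A : Finset ε → Prop) :
    0 ≤ Pr p E A := by
  exact EE_nonneg hp0 hp1 E fun ω _ => ind_nonneg _

theorem Pr_le_one {p : ℝ} (hp0 : 0 ≤ p) (hp1 : p ≤ 1) (E : Finset ε) (A : Finset ε → Prop) :
    Pr p E A ≤ 1 := by
  have h := EE_mono hp0 hp1 E (f := fun ω => ind (A ω)) (g := fun _ => 1) fun ω _ => ind_le_one _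
  rw [EE_one] at h
  exact h

theorem Pr_congr (p : ℝ) (E : Finset ε) {A B : Finset ε → Prop} (h : ∀ ω, ω ⊆ E → (A ω ↔ B ω)) :
    Pr p E A = Pr p E B := by
  refine EE_congr p E fun ω hω => ?_
  have h1 : (A ω) = (B ω) := propext (h ω hω)
  rw [h1]

theorem Pr_mono {p : ℝ} (hp0 : 0 ≤ p) (hp1 : p ≤ 1) (E : Finset ε) {A B : Finset ε → Prop}
    (h : ∀ ω, ω ⊆ E → A ω → B ω) : Pr p E A ≤ Pr p E B := by
  exact EE_mono hp0 hp1 E fun ω hω => ind_mono (h ω hω)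

theorem Pr_true (p : ℝ) (E : Finset ε) {A : Finset ε → Prop} (h : ∀ ω, ω ⊆ E → A ω) :
    Pr p E A = 1 := by
  rw [← EE_one p E]
  exact EE_congr p E fun ω hω => ind_of (h ω hω)

theorem Pr_false (p : ℝ) (E : Finset ε) {A : Finset ε → Prop} (h : ∀ ω, ω ⊆ E → ¬ A ω) :
    Pr p E A = 0 := by
  rw [← EE_const p E 0]
  exact EE_congr p E fun ω hω => ind_not (h ω hω)

theorem Pr_not (p : ℝ) (E : Finset ε) (A : Finset ε → Prop) :
    Pr p E (fun ω => ¬ A ω) = 1 - Pr p E A := by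
  have h1 : Pr p E (fun ω => ¬ A ω) = EE p E (fun ω => 1 - ind (A ω)) :=
    EE_congr p E fun ω _ => ind_compl (A ω)
  rw [h1, EE_sub p E (fun _ => 1) (fun ω => ind (A ω)), EE_one]
  rfl

theorem Pr_split (p : ℝ) (E : Finset ε) (A B : Finset ε → Prop) :
    Pr p E A = Pr p E (fun ω => A ω ∧ B ω) + Pr p E (fun ω => A ω ∧ ¬ B ω) := by
  unfold Pr
  rw [← EE_add]
  refine EE_congr p E fun ω _ => ?_
  by_cases hA : A ω
  · by_cases hB : B ω
    · rw [ind_of hA, ind_of (And.intro hA hB), ind_not (fun h : A ω ∧ ¬ B ω => h.2 hB), add_zero]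
    · rw [ind_of hA, ind_not (fun h : A ω ∧ B ω => hB h.2), ind_of (And.intro hA hB), zero_add]
  · rw [ind_not hA, ind_not (fun h : A ω ∧ B ω => hA h.1), ind_not (fun h : A ω ∧ ¬ B ω => hA h.1), add_zero]

theorem Pr_or_le {p : ℝ} (hp0 : 0 ≤ p) (hp1 : p ≤ 1) (E : Finset ε) (A B : Finset ε → Prop) :
    Pr p E (fun ω => A ω ∨ B ω) ≤ Pr p E A + Pr p E B := by
  unfold Pr
  rw [← EE_add]
  refine EE_mono hp0 hp1 E fun ω _ => ?_
  have hA0 := ind_nonneg (A ω)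
  have hB0 := ind_nonneg (B ω)
  by_cases hA : A ω
  · rw [ind_of (Or.inl hA : A ω ∨ B ω), ind_of hA]
    linarith
  · by_cases hB : B ω
    · rw [ind_of (Or.inr hB : A ω ∨ B ω), ind_of hB]
      linarith
    · rw [ind_not (fun h : A ω ∨ B ω => h.elim hA hB)]
      linarith

/-- union bound -/
theorem Pr_exists_le {κ : Type} {p : ℝ} (hp0 : 0 ≤ p) (hp1 : p ≤ 1) (E : Finset ε) (s : Finset κ)
    (A : κ → Finset ε → Prop) : Pr p E (fun ω => ∃ k ∈ s, A k ω) ≤ ∑ k ∈ s, Pr p E (A k) := by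
  unfold Pr
  rw [← EE_sum]
  refine EE_mono hp0 hp1 E fun ω _ => ?_
  by_cases h : ∃ k ∈ s, A k ω
  · rw [ind_of h]
    obtain ⟨k, hk, hk1⟩ := h
    rw [← ind_of hk1]
    exact Finset.single_le_sum (f := fun k => ind (A k ω)) (fun i _ => ind_nonneg (A i ω)) hk
  · rw [ind_not h]
    exact Finset.sum_nonneg fun i _ => ind_nonneg (A i ω)

/-- pairwise exclusive events -/
theorem Pr_exists_eq {κ : Type} (p : ℝ) (E : Finset ε) (s : Finset κ)
    (A : κ → Finset ε → Prop) (h : ∀ ω, ω ⊆ E → ∀ k ∈ s, ∀ l ∈ s, A k ω → A l ω → k = l) :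
    Pr p E (fun ω => ∃ k ∈ s, A k ω) = ∑ k ∈ s, Pr p E (A k) := by
  unfold Pr
  rw [← EE_sum]
  refine EE_congr p E fun ω hω => ?_
  by_cases h1 : ∃ k ∈ s, A k ω
  · rw [ind_of h1]
    obtain ⟨k, hk, hk1⟩ := h1
    rw [Finset.sum_eq_single_of_mem k hk, ind_of hk1]
    intro l hl hne
    exact ind_not fun h2 => hne (h ω hω l hl k hk h2 hk1)
  · rw [ind_not h1]
    symm
    exact Finset.sum_eq_zero fun k hk => ind_not fun h2 => h1 ⟨k, hk, h2⟩

/-- pairwise exclusive events contained in `B` -/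
theorem sum_Pr_le {κ : Type} {p : ℝ} (hp0 : 0 ≤ p) (hp1 : p ≤ 1) (E : Finset ε) (s : Finset κ)
    (A : κ → Finset ε → Prop) (B : Finset ε → Prop)
    (h : ∀ ω, ω ⊆ E → ∀ k ∈ s, ∀ l ∈ s, A k ω → A l ω → k = l)
    (hB : ∀ ω, ω ⊆ E → ∀ k ∈ s, A k ω → B ω) : ∑ k ∈ s, Pr p E (A k) ≤ Pr p E B := by
  rw [← Pr_exists_eq p E s A h]
  refine Pr_mono hp0 hp1 E ?_
  rintro ω hω ⟨k, hk, hk1⟩
  exact hB ω hω k hk hk1

theorem Pr_restrict (p : ℝ) {E₁ E : Finset ε} (hE : E₁ ⊆ E) (A : Finset ε → Prop)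
    (h : ∀ ω, ω ⊆ E → (A ω ↔ A (ω ∩ E₁))) : Pr p E A = Pr p E₁ A := by
  refine EE_restrict p hE (fun ω => ind (A ω)) fun ω hω => ?_
  have h1 : (A ω) = (A (ω ∩ E₁)) := propext (h ω hω)
  show ind (A ω) = ind (A (ω ∩ E₁))
  rw [← h1]

/-- independence -/
theorem Pr_indep (p : ℝ) {E₁ E₂ E : Finset ε} (h₁ : E₁ ⊆ E) (h₂ : E₂ ⊆ E) (hd : Disjoint E₁ E₂)
    (A B : Finset ε → Prop) (hA : ∀ ω, ω ⊆ E → (A ω ↔ A (ω ∩ E₁)))
    (hB : ∀ ω, ω ⊆ E → (B ω ↔ B (ω ∩ E₂))) :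
    Pr p E (fun ω => A ω ∧ B ω) = Pr p E A * Pr p E B := by
  have hu : E₁ ∪ E₂ ⊆ E := Finset.union_subset h₁ h₂
  have hi1 : ∀ ω : Finset ε, (ω ∩ (E₁ ∪ E₂)) ∩ E₁ = ω ∩ E₁ := by
    intro ω
    ext x
    simp only [Finset.mem_inter, Finset.mem_union]
    tauto
  have hi2 : ∀ ω : Finset ε, (ω ∩ (E₁ ∪ E₂)) ∩ E₂ = ω ∩ E₂ := by
    intro ω
    ext x
    simp only [Finset.mem_inter, Finset.mem_union]
    tauto
  have h1 : Pr p E (fun ω => A ω ∧ B ω) = Pr p (E₁ ∪ E₂) (fun ω => A ω ∧ B ω) := by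
    refine Pr_restrict p hu _ fun ω hω => ?_
    have hω' : ω ∩ (E₁ ∪ E₂) ⊆ E := Finset.inter_subset_left.trans hω
    have h3 := hA _ hω'
    have h4 := hB _ hω'
    rw [hi1] at h3
    rw [hi2] at h4
    show A ω ∧ B ω ↔ A (ω ∩ (E₁ ∪ E₂)) ∧ B (ω ∩ (E₁ ∪ E₂))
    rw [h3, h4, ← hA ω hω, ← hB ω hω]
  have h2 : Pr p (E₁ ∪ E₂) (fun ω => A ω ∧ B ω) =
      EE p (E₁ ∪ E₂) (fun ω => ind (A (ω ∩ E₁)) * ind (B (ω ∩ E₂))) := by
    refine EE_congr p _ fun ω hω => ?_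
    rw [ind_and]
    have h3 : (A ω) = (A (ω ∩ E₁)) := propext (hA ω (hω.trans hu))
    have h4 : (B ω) = (B (ω ∩ E₂)) := propext (hB ω (hω.trans hu))
    rw [← h3, ← h4]
  rw [h1, h2, EE_prod p hd (fun ω => ind (A ω)) (fun ω => ind (B ω)), Pr_restrict p h₁ A hA, Pr_restrict p h₂ B hB]
  rfl

/-- an open edge -/
theorem Pr_open (p : ℝ) {E : Finset ε} {b : ε} (hb : b ∈ E) (A : Finset ε → Prop) :
    Pr p E (fun ω => b ∈ ω ∧ A (ω.erase b)) = p * Pr p (E.erase b) A := by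
  have h1 : E = insert b (E.erase b) := (Finset.insert_erase hb).symm
  have hb' : b ∉ E.erase b := Finset.notMem_erase b E
  have h2 : Pr p E (fun ω => b ∈ ω ∧ A (ω.erase b)) =
      Pr p (insert b (E.erase b)) (fun ω => b ∈ ω ∧ A (ω.erase b)) := by rw [← h1]
  rw [h2]
  unfold Pr
  rw [EE_insert p hb']
  have h3 : EE p (E.erase b) (fun ω => ind (b ∈ insert b ω ∧ A ((insert b ω).erase b))) =
      EE p (E.erase b) (fun ω => ind (A ω)) := by
    refine EE_congr p _ fun ω hω => ?_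
    have hbω : b ∉ ω := fun h => hb' (hω h)
    rw [Finset.erase_insert hbω]
    have h5 : (b ∈ insert b ω ∧ A ω) = (A ω) :=
      propext ⟨fun h => h.2, fun h => ⟨Finset.mem_insert_self b ω, h⟩⟩
    rw [h5]
  have h4 : EE p (E.erase b) (fun ω => ind (b ∈ ω ∧ A (ω.erase b))) = 0 := by
    rw [← EE_const p (E.erase b) 0]
    exact EE_congr p _ fun ω hω => ind_not fun h => hb' (hω h.1)
  rw [h3, h4, mul_zero, add_zero]

/-- an event which does not depend on the state of `b` -/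
theorem Pr_erase (p : ℝ) (E : Finset ε) (b : ε) (A : Finset ε → Prop) :
    Pr p E (fun ω => A (ω.erase b)) = Pr p (E.erase b) A := by
  by_cases hb : b ∈ E
  · have h1 : E = insert b (E.erase b) := (Finset.insert_erase hb).symm
    have hb' : b ∉ E.erase b := Finset.notMem_erase b E
    have h2 : Pr p E (fun ω => A (ω.erase b)) =
        Pr p (insert b (E.erase b)) (fun ω => A (ω.erase b)) := by rw [← h1]
    rw [h2]
    unfold Pr
    rw [EE_insert p hb']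
    have h3 : EE p (E.erase b) (fun ω => ind (A ((insert b ω).erase b))) =
        EE p (E.erase b) (fun ω => ind (A ω)) := by
      refine EE_congr p _ fun ω hω => ?_
      have hbω : b ∉ ω := fun h => hb' (hω h)
      rw [Finset.erase_insert hbω]
    have h4 : EE p (E.erase b) (fun ω => ind (A (ω.erase b))) =
        EE p (E.erase b) (fun ω => ind (A ω)) := by
      refine EE_congr p _ fun ω hω => ?_
      have hbω : b ∉ ω := fun h => hb' (hω h)
      rw [Finset.erase_eq_of_notMem hbω]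
    rw [h3, h4]
    ring
  · rw [Finset.erase_eq_of_notMem hb]
    refine EE_congr p _ fun ω hω => ?_
    have hbω : b ∉ ω := fun h => hb (hω h)
    show ind (A (ω.erase b)) = ind (A ω)
    rw [Finset.erase_eq_of_notMem hbω]

theorem Pr_mono_E {p : ℝ} (hp0 : 0 ≤ p) (hp1 : p ≤ 1) {E E' : Finset ε} (hE : E ⊆ E')
    {A : Finset ε → Prop} (hA : Inc A) : Pr p E A ≤ Pr p E' A := by
  exact EE_mono_E hp0 hp1 hE fun ω ω' h => ind_mono (hA ω ω' h)

theorem Pr_mono_p {p q : ℝ} (hp0 : 0 ≤ p) (hpq : p ≤ q) (hq : q ≤ 1) (E : Finset ε)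
    {A : Finset ε → Prop} (hA : Inc A) : Pr p E A ≤ Pr q E A := by
  exact EE_mono_p hp0 hpq hq E fun ω ω' h => ind_mono (hA ω ω' h)

theorem Pr_continuous (E : Finset ε) (A : Finset ε → Prop) :
    Continuous (fun p : ℝ => Pr p E A) := by
  exact EE_continuous E fun ω => ind (A ω)

end IPC
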