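import Pool.Agent.Lib.MP_25e40f_pr.A.Prb

/-!
# Stream A, job Har: the Harris inequality (about 80 lines)

Induction on `E` for all increasing nonnegative `f`, `g` (`Finset.induction_on`, `EE_insert`): with `a₁ = EE E (f (insert b ·)) ≥ a₀ = EE E f`, `b₁ ≥ b₀` the same for `g`:
`EE (f g) = p EE(f¹ g¹) + (1-p) EE(f g) ≥ p a₁ b₁ + (1-p) a₀ b₀ ≥ (p a₁ + (1-p) a₀)(p b₁ + (1-p) b₀)` since the difference is `p (1-p) (a₁-a₀)(b₁-b₀)`.
-/

set_option autoImplicit false

noncomputable section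

open Finset

namespace IPC

variable {ε : Type} [DecidableEq ε]

theorem EE_harris {p : ℝ} (hp0 : 0 ≤ p) (hp1 : p ≤ 1) (E : Finset ε) (f g : Finset ε → ℝ)
    (hf : ∀ ω ω', ω ⊆ ω' → f ω ≤ f ω') (hg : ∀ ω ω', ω ⊆ ω' → g ω ≤ g ω') :
    EE p E f * EE p E g ≤ EE p E (fun ω => f ω * g ω) := by
  induction E using Finset.induction_on generalizing f g with
  | empty => rw [EE_empty, EE_empty, EE_empty]
  | insert b E hb ih =>
    rw [EE_insert p hb f, EE_insert p hb g, EE_insert p hb (fun ω => f ω * g ω)]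
    have h1 := ih (fun ω => f (insert b ω)) (fun ω => g (insert b ω))
      (fun ω ω' h => hf _ _ (Finset.insert_subset_insert b h))
      (fun ω ω' h => hg _ _ (Finset.insert_subset_insert b h))
    have h0 := ih f g hf hg
    have ha : EE p E f ≤ EE p E (fun ω => f (insert b ω)) :=
      EE_mono hp0 hp1 E fun ω _ => hf _ _ (Finset.subset_insert b ω)
    have hb' : EE p E g ≤ EE p E (fun ω => g (insert b ω)) :=
      EE_mono hp0 hp1 E fun ω _ => hg _ _ (Finset.subset_insert b ω)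
    have hq : 0 ≤ 1 - p := by linarith
    have h2 := mul_le_mul_of_nonneg_left h1 hp0
    have h3 := mul_le_mul_of_nonneg_left h0 hq
    have h4 := mul_nonneg (mul_nonneg hp0 hq) (mul_nonneg (sub_nonneg.2 ha) (sub_nonneg.2 hb'))
    nlinarith

theorem harris {p : ℝ} (hp0 : 0 ≤ p) (hp1 : p ≤ 1) (E : Finset ε) (A B : Finset ε → Prop)
    (hA : Inc A) (hB : Inc B) : Pr p E A * Pr p E B ≤ Pr p E (fun ω => A ω ∧ B ω) := by
  unfold Pr
  refine (EE_harris hp0 hp1 E _ _ (fun ω ω' h => ind_mono (hA ω ω' h))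
    (fun ω ω' h => ind_mono (hB ω ω' h))).trans (le_of_eq ?_)
  refine EE_congr p E fun ω _ => ?_
  exact (ind_and _ _).symm

/-- finitely many increasing events -/
theorem harris_list {p : ℝ} (hp0 : 0 ≤ p) (hp1 : p ≤ 1) (E : Finset ε)
    (L : List (Finset ε → Prop)) (hL : ∀ A ∈ L, Inc A) :
    (L.map (Pr p E)).prod ≤ Pr p E (fun ω => ∀ A ∈ L, A ω) := by
  induction L with
  | nil =>
    rw [List.map_nil, List.prod_nil, Pr_true p E]
    intro ω _ A hA
    exact absurd hA List.not_mem_nil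
  | cons A L ih =>
    rw [List.map_cons, List.prod_cons]
    have h1 := ih fun B hB => hL B (List.mem_cons_of_mem A hB)
    have hI : Inc (fun ω => ∀ B ∈ L, B ω) := by
      intro ω ω' h hω B hB
      exact hL B (List.mem_cons_of_mem A hB) ω ω' h (hω B hB)
    have h2 := harris hp0 hp1 E A (fun ω => ∀ B ∈ L, B ω) (hL A List.mem_cons_self) hI
    refine (mul_le_mul_of_nonneg_left h1 (Pr_nonneg hp0 hp1 E A)).trans (h2.trans (le_of_eq ?_))
    refine Pr_congr p E fun ω _ => ?_
    rw [List.forall_mem_cons]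

end IPC
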