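import Pool.Agent.Lib.MP_25e40f_pr.A.Prb

/-!
# Stream A, job Rus: Russo's formula (about 80 lines)

`f : Finset ε → ℝ`: `d/dp EE p E f = ∑_{e ∈ E} EE p (E.erase e) (fun ω => f (insert e ω) - f ω)`.  Induction on `E` for all `f` (`EE_insert`, product rule):
`EE p (insert b E) f = p EE p E f¹ + (1-p) EE p E f`, derivative `= EE p E (f¹ - f) + p ∑_{e ∈ E} EE p (E.erase e) (f¹(insert e ·) - f¹) + (1-p) ∑_{e ∈ E} EE p (E.erase e) (f (insert e ·) - f)`,
and `EE p ((insert b E).erase e) g = p EE p (E.erase e) g¹ + (1-p) EE p (E.erase e) g` for `e ∈ E` (`(insert b E).erase e = insert b (E.erase e)`), `(insert b E).erase b = E`.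
-/

set_option autoImplicit false

noncomputable section

open Finset

namespace IPC

variable {ε : Type} [DecidableEq ε]

theorem EE_hasDerivAt (E : Finset ε) (f : Finset ε → ℝ) (p : ℝ) :
    HasDerivAt (fun q : ℝ => EE q E f)
      (∑ e ∈ E, EE p (E.erase e) (fun ω => f (insert e ω) - f ω)) p := by
  induction E using Finset.induction_on generalizing f with
  | empty =>
    have h : (fun q : ℝ => EE q ∅ f) = fun _ => f ∅ := by
      funext q
      exact EE_empty q f
    rw [h, Finset.sum_empty]
    exact hasDerivAt_const p (f ∅)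
  | insert b E hb ih =>
    have h : (fun q : ℝ => EE q (insert b E) f) =
        fun q => q * EE q E (fun ω => f (insert b ω)) + (1 - q) * EE q E f := by
      funext q
      exact EE_insert q hb f
    have h1 := (hasDerivAt_id p).mul (ih (fun ω => f (insert b ω)))
    have h2 := ((hasDerivAt_const p (1 : ℝ)).sub (hasDerivAt_id p)).mul (ih f)
    have h3 := h1.add h2
    have hE : (insert b E).erase b = E := Finset.erase_insert hb
    have hsum : ∑ e ∈ E, EE p ((insert b E).erase e) (fun ω => f (insert e ω) - f ω) =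
        p * (∑ e ∈ E, EE p (E.erase e) (fun ω => f (insert b (insert e ω)) - f (insert b ω))) +
        (1 - p) * ∑ e ∈ E, EE p (E.erase e) (fun ω => f (insert e ω) - f ω) := by
      rw [Finset.mul_sum, Finset.mul_sum, ← Finset.sum_add_distrib]
      refine Finset.sum_congr rfl fun e he => ?_
      have hbe : b ≠ e := fun h => hb (h ▸ he)
      have e1 : (insert b E).erase e = insert b (E.erase e) := Finset.erase_insert_of_ne hbe
      have hb' : b ∉ E.erase e := fun h => hb (Finset.mem_of_mem_erase h)
      rw [e1, EE_insert p hb']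
      have e2 : (fun ω => f (insert e (insert b ω)) - f (insert b ω)) =
          fun ω => f (insert b (insert e ω)) - f (insert b ω) := by
        funext ω
        rw [Finset.insert_comm]
      rw [e2]
    rw [h]
    refine h3.congr_deriv ?_
    rw [Finset.sum_insert hb, hE, EE_sub, hsum]
    simp only [id_eq, Pi.sub_apply]
    ring

private theorem Rus_erase (E : Finset ε) (B : Finset ε → Prop) (p : ℝ) {e : ε} (he : e ∈ E) :
    Pr p E (fun ω => e ∉ ω ∧ B ω) = (1 - p) * Pr p (E.erase e) B := by
  have h0 : Pr p (insert e (E.erase e)) (fun ω => e ∉ ω ∧ B ω) = (1 - p) * Pr p (E.erase e) B := by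
    unfold Pr
    rw [EE_insert p (Finset.notMem_erase e E)]
    have h1 : EE p (E.erase e) (fun ω => ind (e ∉ insert e ω ∧ B (insert e ω))) = EE p (E.erase e) (fun _ => 0) := by
      apply EE_congr
      intro ω _
      exact ind_not (fun h => h.1 (Finset.mem_insert_self _ _))
    have h2 : EE p (E.erase e) (fun ω => ind (e ∉ ω ∧ B ω)) = EE p (E.erase e) (fun ω => ind (B ω)) := by
      apply EE_congr
      intro ω hω
      have : e ∉ ω := fun h => Finset.notMem_erase e E (hω h)
      by_cases hB : B ω
      · rw [ind_of hB, ind_of ⟨this, hB⟩]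
      · rw [ind_not hB, ind_not (fun h => hB h.2)]
    rw [h1, h2, EE_const]
    ring
  rwa [Finset.insert_erase he] at h0

/-- Russo's formula: the derivative is the sum over the edges of the probability that the edge is closed and
pivotal, divided by `1 - p` -/
theorem russo (E : Finset ε) (A : Finset ε → Prop) (hA : Inc A) (p : ℝ) (hp : p < 1) :
    HasDerivAt (fun q : ℝ => Pr q E A)
      ((1 - p)⁻¹ * ∑ e ∈ E, Pr p E (fun ω => e ∉ ω ∧ ¬ A ω ∧ A (insert e ω))) p := by
  have h := EE_hasDerivAt E (fun ω => ind (A ω)) p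
  refine h.congr_deriv ?_
  have hp' : 1 - p ≠ 0 := by linarith
  have h1 : ∑ e ∈ E, Pr p E (fun ω => e ∉ ω ∧ ¬ A ω ∧ A (insert e ω)) =
      (1 - p) * ∑ e ∈ E, EE p (E.erase e) (fun ω => ind (A (insert e ω)) - ind (A ω)) := by
    rw [Finset.mul_sum]
    refine Finset.sum_congr rfl fun e he => ?_
    rw [Rus_erase E (fun ω => ¬ A ω ∧ A (insert e ω)) p he]
    congr 1
    unfold Pr
    apply EE_congr
    intro ω _
    by_cases h1 : A ω
    · have h2 : A (insert e ω) := hA _ _ (Finset.subset_insert _ _) h1
      rw [ind_of h1, ind_of h2, ind_not (fun h => h.1 h1)]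
      ring
    · by_cases h2 : A (insert e ω)
      · rw [ind_not h1, ind_of h2, ind_of ⟨h1, h2⟩]
        ring
      · rw [ind_not h1, ind_not h2, ind_not (fun h => h2 h.2)]
        ring
  rw [h1, ← mul_assoc, inv_mul_cancel₀ hp', one_mul]

end IPC
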