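import Pool.Agent.Lib.MP_25e40f_pr.A.Occ

/-!
# Stream A, job BK: the van den Berg - Kesten inequality for `p ≤ 1/2` (about 150 lines)

Finished model (configurations `ι → Bool` instead of subsets): `Pool/Agent/Lib/MP_7946c7_pr/G/BK.lean`.
`Box A B ω`: there are disjoint `ω₁, ω₂ ⊆ ω` with `A ω₁`, `B ω₂`.  Induction on `E` for all increasing `A`, `B` (`Finset.induction_on`, `EE_insert` for the indicators).  Let `b ∉ E`, and
`A⁰ ω = A ω`, `A¹ ω = A (insert b ω)` for `ω ⊆ E` (both increasing, `A⁰ → A¹`), the same for `B`.  For `ω ⊆ E`: `Box A B ω ↔ Box A⁰ B⁰ ω`, and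
`Box A B (insert b ω) → Box A¹ B⁰ ω ∨ Box A⁰ B¹ ω` (`b` is in at most one of the witnesses; remove it), and `Box A⁰ B⁰ ω` implies both.  So, with `D = Pr (Box A⁰ B⁰)`,
`Pr (Box A B) ≤ (1-p) D + p (Pr (Box A¹ B⁰) + Pr (Box A⁰ B¹) - D)` (`ind (P ∨ Q) + ind R ≤ ind P + ind Q` if `R → P ∧ Q`), `1 - 2p ≥ 0`, induction hypothesis three times, and
`((1-p)a₀ + p a₁)((1-p)b₀ + p b₁) - ((1-2p) a₀ b₀ + p (a₁ b₀ + a₀ b₁)) = p² (a₁-a₀)(b₁-b₀) ≥ 0`.
`bk_list`: induction on the list, `Occ (A :: L) ω → Box A (Occ L) ω`, `Occ L` is increasing (`Occ_mono`).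
-/

set_option autoImplicit false

noncomputable section

open Finset

namespace IPC

variable {ε : Type} [DecidableEq ε]

/-- disjoint occurrence of two events -/
def Box (A B : Finset ε → Prop) (ω : Finset ε) : Prop :=
  ∃ ω₁ ω₂, ω₁ ⊆ ω ∧ ω₂ ⊆ ω ∧ Disjoint ω₁ ω₂ ∧ A ω₁ ∧ B ω₂

theorem Box_inc (A B : Finset ε → Prop) : Inc (Box A B) := by
  rintro ω ω' h ⟨ω₁, ω₂, h1, h2, h3, h4, h5⟩
  exact ⟨ω₁, ω₂, h1.trans h, h2.trans h, h3, h4, h5⟩

private theorem BK_step {A B : Finset ε → Prop} (hB : Inc B) {b : ε} {ω : Finset ε}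
    (h : Box A B (insert b ω)) :
    Box (fun ω => A (insert b ω)) B ω ∨ Box A (fun ω => B (insert b ω)) ω := by
  obtain ⟨ω₁, ω₂, h1, h2, h3, h4, h5⟩ := h
  by_cases hb : b ∈ ω₁
  · left
    have hb2 : b ∉ ω₂ := Finset.disjoint_left.1 h3 hb
    refine ⟨ω₁.erase b, ω₂, ?_, ?_, ?_, ?_, h5⟩
    · intro e he
      exact Finset.mem_of_mem_insert_of_ne (h1 (Finset.mem_of_mem_erase he))
        (Finset.ne_of_mem_erase he)
    · intro e he
      exact Finset.mem_of_mem_insert_of_ne (h2 he) (fun h => hb2 (h ▸ he))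
    · exact Finset.disjoint_of_subset_left (Finset.erase_subset _ _) h3
    · show A (insert b (ω₁.erase b))
      rw [Finset.insert_erase hb]
      exact h4
  · right
    refine ⟨ω₁, ω₂.erase b, ?_, ?_, ?_, h4, ?_⟩
    · intro e he
      exact Finset.mem_of_mem_insert_of_ne (h1 he) (fun h => hb (h ▸ he))
    · intro e he
      exact Finset.mem_of_mem_insert_of_ne (h2 (Finset.mem_of_mem_erase he))
        (Finset.ne_of_mem_erase he)
    · exact Finset.disjoint_of_subset_right (Finset.erase_subset _ _) h3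
    · show B (insert b (ω₂.erase b))
      exact hB _ _ (Finset.subset_insert_iff.2 (Finset.Subset.refl _)) h5

private theorem BK_ind {P Q R S : Prop} (h1 : P → Q ∨ R) (h2 : S → Q) (h3 : S → R) :
    ind P + ind S ≤ ind Q + ind R := by
  by_cases hS : S
  · have e1 := ind_of hS
    have e2 := ind_of (h2 hS)
    have e3 := ind_of (h3 hS)
    have e4 := ind_le_one P
    linarith
  · have e1 := ind_not hS
    by_cases hP : P
    · rcases h1 hP with hQ | hR
      · have e2 := ind_of hQ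
        have e3 := ind_nonneg R
        have e4 := ind_le_one P
        linarith
      · have e2 := ind_of hR
        have e3 := ind_nonneg Q
        have e4 := ind_le_one P
        linarith
    · have e2 := ind_not hP
      have e3 := ind_nonneg Q
      have e4 := ind_nonneg R
      linarith

private theorem BK_Pr_insert (p : ℝ) {E : Finset ε} {b : ε} (hb : b ∉ E) (A : Finset ε → Prop) :
    Pr p (insert b E) A = p * Pr p E (fun ω => A (insert b ω)) + (1 - p) * Pr p E A :=
  EE_insert p hb (fun ω => ind (A ω))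

theorem bk {p : ℝ} (hp0 : 0 ≤ p) (hp : p ≤ 1 / 2) (E : Finset ε) (A B : Finset ε → Prop)
    (hA : Inc A) (hB : Inc B) : Pr p E (Box A B) ≤ Pr p E A * Pr p E B := by
  have hp1 : p ≤ 1 := by linarith
  induction E using Finset.induction_on generalizing A B with
  | empty =>
    unfold Pr
    rw [EE_empty, EE_empty, EE_empty, ← ind_and]
    apply ind_mono
    rintro ⟨ω₁, ω₂, h1, h2, _, h4, h5⟩
    exact ⟨hA _ _ h1 h4, hB _ _ h2 h5⟩
  | insert b E hb ih =>
    have hA1 : Inc (fun ω => A (insert b ω)) := fun ω ω' h h' =>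
      hA _ _ (Finset.insert_subset_insert _ h) h'
    have hB1 : Inc (fun ω => B (insert b ω)) := fun ω ω' h h' =>
      hB _ _ (Finset.insert_subset_insert _ h) h'
    have i1 := ih _ _ hA1 hB
    have i2 := ih _ _ hA hB1
    have i3 := ih _ _ hA hB
    have a1 : Pr p E A ≤ Pr p E (fun ω => A (insert b ω)) :=
      Pr_mono hp0 hp1 E fun ω _ h => hA _ _ (Finset.subset_insert _ _) h
    have b1 : Pr p E B ≤ Pr p E (fun ω => B (insert b ω)) :=
      Pr_mono hp0 hp1 E fun ω _ h => hB _ _ (Finset.subset_insert _ _) h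
    have key : Pr p E (fun ω => Box A B (insert b ω)) + Pr p E (Box A B) ≤
        Pr p E (Box (fun ω => A (insert b ω)) B) + Pr p E (Box A (fun ω => B (insert b ω))) := by
      unfold Pr
      rw [← EE_add, ← EE_add]
      apply EE_mono hp0 hp1
      intro ω _
      apply BK_ind
      · exact BK_step hB
      · rintro ⟨ω₁, ω₂, h1, h2, h3, h4, h5⟩
        exact ⟨ω₁, ω₂, h1, h2, h3, hA _ _ (Finset.subset_insert _ _) h4, h5⟩
      · rintro ⟨ω₁, ω₂, h1, h2, h3, h4, h5⟩
        exact ⟨ω₁, ω₂, h1, h2, h3, h4, hB _ _ (Finset.subset_insert _ _) h5⟩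
    rw [BK_Pr_insert p hb, BK_Pr_insert p hb, BK_Pr_insert p hb]
    have k1 := mul_le_mul_of_nonneg_left key hp0
    have k2 := mul_le_mul_of_nonneg_left i1 hp0
    have k3 := mul_le_mul_of_nonneg_left i2 hp0
    have k4 := mul_le_mul_of_nonneg_left i3 (by linarith : 0 ≤ 1 - 2 * p)
    have k5 := mul_nonneg (mul_nonneg hp0 hp0)
      (mul_nonneg (sub_nonneg.2 a1) (sub_nonneg.2 b1))
    nlinarith [k1, k2, k3, k4, k5]

theorem bk_list {p : ℝ} (hp0 : 0 ≤ p) (hp : p ≤ 1 / 2) (E : Finset ε)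
    (L : List (Finset ε → Prop)) (hL : ∀ A ∈ L, Inc A) :
    Pr p E (Occ L) ≤ (L.map (Pr p E)).prod := by
  have hp1 : p ≤ 1 := by linarith
  induction L with
  | nil =>
    rw [List.map_nil, List.prod_nil]
    exact Pr_le_one hp0 hp1 E _
  | cons A L ih =>
    rw [List.map_cons, List.prod_cons]
    have h1 : Pr p E (Occ (A :: L)) ≤ Pr p E (Box A (Occ L)) := by
      apply Pr_mono hp0 hp1
      rintro ω _ ⟨ω₁, h2, h3, h4⟩
      exact ⟨ω₁, ω \ ω₁, h2, Finset.sdiff_subset, Finset.disjoint_sdiff, h3, h4⟩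
    have h2 := bk hp0 hp E A (Occ L) (hL A List.mem_cons_self) (Occ_mono L)
    have h3 := ih fun B hB => hL B (List.mem_cons_of_mem _ hB)
    exact h1.trans (h2.trans (mul_le_mul_of_nonneg_left h3 (Pr_nonneg hp0 hp1 E A)))

end IPC
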