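import Pool.Agent.Lib.MP_25e40f_pr.A.Trl
import Pool.Agent.Lib.MP_25e40f_pr.A.BK

/-!
# Stream A, job Att: lines and the attachment lemma (about 200 lines)

A line is a triple `(E, a, b)`: `a` and `b` are connected inside `E`.  `OL L ω`: the lines of `L` occur disjointly in `ω`.
* `OL_attach`: from `Occ_witness` (witnesses `w_i ⊆ ω`, pairwise disjoint, `Conn (w_i ∩ E_i) a_i b_i`); by `exists_trail` replace `w_i` by a trail `w_i ⊆ E_i` (edge set of a trail from `a_i` to `b_i`).
  Let `X = X₀ ∪ (all a_i, b_i) ∪ ⋃ VV w_i` (finite).  `t₀ ∈ X` (`t₀ ∈ X₀` or an endpoint of a line).  `Conn_last_exit` for `Conn (ω ∩ E') t₀ y` and `X`: `t ∈ X`, `Conn w' t y` with `w' ⊆ ω ∩ E'`, no edge of `w'` inside `X`;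
  edges of `w_i` are inside `X`, so `w'` is disjoint from all `w_i`.  If `t ∈ X₀`: second alternative.  Otherwise `t` is an endpoint of line `i` or in `VV w_i`: `Trail_split` (note that the splitting point of the
  list is `L = L₁ ++ l :: L₂`), `Occ_of_witness` for the new list.
* `OL_bound`: `bk_list` and `Pr_restrict` for each line (`Ln E' a b ω` only depends on `ω ∩ E'`, and `E' ⊆ E`).
-/

set_option autoImplicit false

noncomputable section

open Finset

namespace IPC

variable {V : Type} [DecidableEq V]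

/-- a line: edge set and endpoints -/
abbrev Line (V : Type) := Finset (Sym2 V) × V × V

/-- disjoint occurrence of lines -/
def OL (L : List (Line V)) : Finset (Sym2 V) → Prop := Occ (L.map fun l => Ln l.1 l.2.1 l.2.2)

/-- connection probability inside a finite edge set -/
def tE (p : ℝ) (E : Finset (Sym2 V)) (a b : V) : ℝ := Pr p E (fun ω => Conn ω a b)

theorem OL_inc (L : List (Line V)) : Inc (OL L) := by
  exact Occ_mono _

theorem OL_perm {L L' : List (Line V)} (h : L.Perm L') (ω : Finset (Sym2 V)) : OL L ω ↔ OL L' ω := by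
  exact Occ_perm (h.map _) ω

theorem OL_append (L L' : List (Line V)) (ω : Finset (Sym2 V)) :
    OL (L ++ L') ω ↔ ∃ ω₁, ω₁ ⊆ ω ∧ OL L ω₁ ∧ OL L' (ω \ ω₁) := by
  unfold OL
  rw [List.map_append]
  exact Occ_append _ _ ω

/-- enlarge the edge sets of the lines -/
theorem OL_single (E : Finset (Sym2 V)) (a b : V) (ω : Finset (Sym2 V)) :
    OL [(E, a, b)] ω ↔ Conn (ω ∩ E) a b := by
  exact Occ_one (Ln E a b) (Ln_inc E a b) ω

private theorem Att_occ (L : List (Line V)) (T : List (Finset (Sym2 V))) (ω : Finset (Sym2 V))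
    (hsub : ∀ t ∈ T, t ⊆ ω) (hpd : T.Pairwise Disjoint)
    (hT : List.Forall₂ (fun l t => Conn (t ∩ l.1) l.2.1 l.2.2) L T) : OL L ω := by
  refine Occ_of_witness _ ω T ?_ hsub hpd ?_
  · rw [List.length_map]
    exact hT.length_eq.symm
  · rw [List.forall₂_map_left_iff]
    exact hT

private theorem Att_trails (L : List (Line V)) (W : List (Finset (Sym2 V)))
    (h : List.Forall₂ (fun (l : Line V) w => Conn (w ∩ l.1) l.2.1 l.2.2) L W) :
    ∃ T : List (Finset (Sym2 V)), List.Forall₂ (fun t w => t ⊆ w) T W ∧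
      List.Forall₂ (fun (l : Line V) t => Trail t l.2.1 l.2.2 ∧ t ⊆ l.1) L T := by
  induction h with
  | nil => exact ⟨[], List.Forall₂.nil, List.Forall₂.nil⟩
  | cons hab _ ih =>
    obtain ⟨T, h1, h2⟩ := ih
    obtain ⟨t, ht, ht'⟩ := exists_trail hab
    exact ⟨t :: T, List.Forall₂.cons (ht.trans Finset.inter_subset_left) h1,
      List.Forall₂.cons ⟨ht', ht.trans Finset.inter_subset_right⟩ h2⟩

omit [DecidableEq V] in
private theorem Att_mem {T W : List (Finset (Sym2 V))} (h : List.Forall₂ (fun t w => t ⊆ w) T W)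
    {t : Finset (Sym2 V)} (ht : t ∈ T) : ∃ w ∈ W, t ⊆ w := by
  induction h with
  | nil => exact absurd ht List.not_mem_nil
  | cons hab _ ih =>
    rw [List.mem_cons] at ht
    rcases ht with rfl | ht
    · exact ⟨_, List.mem_cons_self, hab⟩
    · obtain ⟨w, hw, h1⟩ := ih ht
      exact ⟨w, List.mem_cons_of_mem _ hw, h1⟩

private theorem Att_pw {T W : List (Finset (Sym2 V))} (h : List.Forall₂ (fun t w => t ⊆ w) T W)
    (hW : W.Pairwise Disjoint) : T.Pairwise Disjoint := by
  induction h with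
  | nil => exact List.Pairwise.nil
  | cons hab h' ih =>
    rw [List.pairwise_cons] at hW ⊢
    refine ⟨fun t ht => ?_, ih hW.2⟩
    obtain ⟨w, hw, h1⟩ := Att_mem h' ht
    exact Finset.disjoint_of_subset_left hab (Finset.disjoint_of_subset_right h1 (hW.1 w hw))

omit [DecidableEq V] in
private theorem Att_find {R P : Line V → Finset (Sym2 V) → Prop} {L : List (Line V)}
    {T : List (Finset (Sym2 V))} (h : List.Forall₂ R L T)
    (hex : (∃ l ∈ L, ∀ τ, R l τ → P l τ) ∨ (∃ τ ∈ T, ∀ l, R l τ → P l τ)) :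
    ∃ (L₁ L₂ : List (Line V)) (T₁ T₂ : List (Finset (Sym2 V))) (l : Line V) (τ : Finset (Sym2 V)),
      L = L₁ ++ l :: L₂ ∧ T = T₁ ++ τ :: T₂ ∧ List.Forall₂ R L₁ T₁ ∧ R l τ ∧ List.Forall₂ R L₂ T₂ ∧
        P l τ := by
  induction h with
  | nil =>
    rcases hex with ⟨l, hl, _⟩ | ⟨l, hl, _⟩
    · exact absurd hl List.not_mem_nil
    · exact absurd hl List.not_mem_nil
  | @cons a b L' T' hab h' ih =>
    by_cases hP : P a b
    · exact ⟨[], L', [], T', a, b, rfl, rfl, List.Forall₂.nil, hab, h', hP⟩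
    · have hex' : (∃ l ∈ L', ∀ τ, R l τ → P l τ) ∨ (∃ τ ∈ T', ∀ l, R l τ → P l τ) := by
        rcases hex with ⟨l, hl, h1⟩ | ⟨τ, hτ, h1⟩
        · rw [List.mem_cons] at hl
          rcases hl with rfl | hl
          · exact absurd (h1 b hab) hP
          · exact Or.inl ⟨l, hl, h1⟩
        · rw [List.mem_cons] at hτ
          rcases hτ with rfl | hτ
          · exact absurd (h1 a hab) hP
          · exact Or.inr ⟨τ, hτ, h1⟩
      obtain ⟨L₁, L₂, T₁, T₂, l, τ, h1, h2, h3, h4, h5, h6⟩ := ih hex'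
      refine ⟨a :: L₁, L₂, b :: T₁, T₂, l, τ, ?_, ?_, List.Forall₂.cons hab h3, h4, h5, h6⟩
      · rw [h1, List.cons_append]
      · rw [h2, List.cons_append]

omit [DecidableEq V] in
private theorem Att_app {R : Line V → Finset (Sym2 V) → Prop} {L₁ L₂ : List (Line V)}
    {T₁ T₂ : List (Finset (Sym2 V))} (h1 : List.Forall₂ R L₁ T₁) (h2 : List.Forall₂ R L₂ T₂) :
    List.Forall₂ R (L₁ ++ L₂) (T₁ ++ T₂) := by
  induction h1 with
  | nil => exact h2
  | cons hab _ ih => exact List.Forall₂.cons hab ih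

private theorem Att_VV {ω ω' : Finset (Sym2 V)} (h : ω ⊆ ω') {t : V} (ht : t ∈ VV ω) : t ∈ VV ω' := by
  rw [mem_VV] at ht ⊢
  obtain ⟨y, hy⟩ := ht
  exact ⟨y, h hy⟩

private theorem Att_edge {ω : Finset (Sym2 V)} {e : Sym2 V} (he : e ∈ ω) {a : V} (ha : a ∈ e) :
    a ∈ VV ω := by
  obtain ⟨b, rfl⟩ := Sym2.mem_iff_exists.1 ha
  rw [mem_VV]
  exact ⟨b, he⟩

private theorem Att_conn {E t : Finset (Sym2 V)} {a b : V} (h : Trail t a b) (hE : t ⊆ E) :
    Conn (t ∩ E) a b := by
  rw [Finset.inter_eq_left.2 hE]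
  exact Trail_conn h

theorem OL_attach (L : List (Line V)) (ω E' : Finset (Sym2 V)) (X₀ : Finset V) (t₀ y : V)
    (hL : OL L ω) (ht₀ : t₀ ∈ X₀ ∨ ∃ l ∈ L, t₀ = l.2.1 ∨ t₀ = l.2.2) (hy : Conn (ω ∩ E') t₀ y) :
    (∃ t ∈ X₀, OL (L ++ [(E', t, y)]) ω) ∨
      ∃ (L₁ L₂ : List (Line V)) (l : Line V) (t : V), L = L₁ ++ l :: L₂ ∧
        (t ∈ VV ω ∨ t = l.2.1 ∨ t = l.2.2) ∧
        OL (L₁ ++ (l.1, l.2.1, t) :: (l.1, t, l.2.2) :: (L₂ ++ [(E', t, y)])) ω := by
  obtain ⟨W, _, hWs, hWd, hWA⟩ := Occ_witness _ ω hL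
  rw [List.forall₂_map_left_iff] at hWA
  obtain ⟨T, hTW, hT⟩ := Att_trails L W hWA
  have hTs : ∀ t ∈ T, t ⊆ ω := by
    intro t ht
    obtain ⟨w, hw, h1⟩ := Att_mem hTW ht
    exact h1.trans (hWs w hw)
  have hTd : T.Pairwise Disjoint := Att_pw hTW hWd
  obtain ⟨X, hX⟩ : ∃ X : Finset V, X = X₀ ∪ L.toFinset.biUnion (fun l => {l.2.1, l.2.2}) ∪
    T.toFinset.biUnion VV := ⟨_, rfl⟩
  have ht₀X : t₀ ∈ X := by
    rw [hX, Finset.mem_union, Finset.mem_union]
    left
    rcases ht₀ with h | ⟨l, hl, h⟩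
    · exact Or.inl h
    · right
      rw [Finset.mem_biUnion]
      refine ⟨l, List.mem_toFinset.2 hl, ?_⟩
      rw [Finset.mem_insert, Finset.mem_singleton]
      exact h
  obtain ⟨t, htX, ht⟩ := Conn_last_exit X ht₀X hy
  obtain ⟨w', hw'1, hw'2, ht⟩ : ∃ w', w' ⊆ ω ∩ E' ∧ (∀ e ∈ w', ¬ ∀ a ∈ e, a ∈ X) ∧ Conn w' t y := by
    classical
    exact ⟨_, Finset.filter_subset _ _, fun e he => (Finset.mem_filter.1 he).2, ht⟩
  have hw'ω : w' ⊆ ω := hw'1.trans Finset.inter_subset_left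
  have hw'E : w' ⊆ E' := hw'1.trans Finset.inter_subset_right
  have hdis : ∀ τ ∈ T, Disjoint τ w' := by
    intro τ hτ
    rw [Finset.disjoint_left]
    intro e he he'
    apply hw'2 e he'
    intro a ha
    rw [hX, Finset.mem_union]
    right
    rw [Finset.mem_biUnion]
    exact ⟨τ, List.mem_toFinset.2 hτ, Att_edge he ha⟩
  have hcy : Conn (w' ∩ E') t y := by
    rw [Finset.inter_eq_left.2 hw'E]
    exact ht
  have hRC : ∀ (l : Line V) (τ : Finset (Sym2 V)), (Trail τ l.2.1 l.2.2 ∧ τ ⊆ l.1) →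
      Conn (τ ∩ l.1) l.2.1 l.2.2 := fun l τ h => Att_conn h.1 h.2
  by_cases htX₀ : t ∈ X₀
  · left
    refine ⟨t, htX₀, Att_occ _ (T ++ [w']) ω ?_ ?_ ?_⟩
    · intro τ hτ
      rw [List.mem_append, List.mem_singleton] at hτ
      rcases hτ with hτ | rfl
      · exact hTs τ hτ
      · exact hw'ω
    · rw [List.pairwise_append]
      refine ⟨hTd, List.pairwise_singleton _ _, ?_⟩
      intro τ hτ σ hσ
      rw [List.mem_singleton] at hσ
      rw [hσ]
      exact hdis τ hτ
    · exact Att_app (hT.imp hRC) (List.Forall₂.cons hcy List.Forall₂.nil)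
  · right
    have hex : (∃ l ∈ L, ∀ τ, (Trail τ l.2.1 l.2.2 ∧ τ ⊆ l.1) → (t = l.2.1 ∨ t = l.2.2 ∨ t ∈ VV τ)) ∨
        (∃ τ ∈ T, ∀ l : Line V, (Trail τ l.2.1 l.2.2 ∧ τ ⊆ l.1) →
          (t = l.2.1 ∨ t = l.2.2 ∨ t ∈ VV τ)) := by
      rw [hX, Finset.mem_union, Finset.mem_union] at htX
      rcases htX with (h | h) | h
      · exact absurd h htX₀
      · rw [Finset.mem_biUnion] at h
        obtain ⟨l, hl, h⟩ := h
        rw [Finset.mem_insert, Finset.mem_singleton] at h
        refine Or.inl ⟨l, List.mem_toFinset.1 hl, fun τ _ => ?_⟩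
        rcases h with h | h
        · exact Or.inl h
        · exact Or.inr (Or.inl h)
      · rw [Finset.mem_biUnion] at h
        obtain ⟨τ, hτ, h⟩ := h
        exact Or.inr ⟨τ, List.mem_toFinset.1 hτ, fun l _ => Or.inr (Or.inr h)⟩
    obtain ⟨L₁, L₂, T₁, T₂, l, τ, h1, h2, h3, h4, h5, h6⟩ :=
      Att_find (P := fun l τ => t = l.2.1 ∨ t = l.2.2 ∨ t ∈ VV τ) hT hex
    obtain ⟨σ₁, σ₂, hd, hu, hs1, hs2⟩ := Trail_split h4.1 h6
    have hσ1 : σ₁ ⊆ τ := by
      rw [← hu]
      exact Finset.subset_union_left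
    have hσ2 : σ₂ ⊆ τ := by
      rw [← hu]
      exact Finset.subset_union_right
    have hτT : τ ∈ T := by
      rw [h2]
      exact List.mem_append_right _ List.mem_cons_self
    have hτω : τ ⊆ ω := hTs τ hτT
    have hm1 : ∀ a ∈ T₁, a ∈ T := fun a ha => by
      rw [h2]
      exact List.mem_append_left _ ha
    have hm2 : ∀ a ∈ T₂, a ∈ T := fun a ha => by
      rw [h2]
      exact List.mem_append_right _ (List.mem_cons_of_mem _ ha)
    have hp := hTd
    rw [h2, List.pairwise_append, List.pairwise_cons] at hp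
    obtain ⟨hp1, ⟨hp2, hp3⟩, hp4⟩ := hp
    refine ⟨L₁, L₂, l, t, h1, ?_, ?_⟩
    · rcases h6 with h | h | h
      · exact Or.inr (Or.inl h)
      · exact Or.inr (Or.inr h)
      · exact Or.inl (Att_VV hτω h)
    · refine Att_occ _ (T₁ ++ σ₁ :: σ₂ :: (T₂ ++ [w'])) ω ?_ ?_ ?_
      · intro a ha
        rw [List.mem_append, List.mem_cons, List.mem_cons, List.mem_append, List.mem_singleton] at ha
        rcases ha with ha | rfl | rfl | ha | rfl
        · exact hTs a (hm1 a ha)
        · exact hσ1.trans hτω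
        · exact hσ2.trans hτω
        · exact hTs a (hm2 a ha)
        · exact hw'ω
      · rw [List.pairwise_append, List.pairwise_cons, List.pairwise_cons, List.pairwise_append]
        refine ⟨hp1, ⟨?_, ?_, hp3, List.pairwise_singleton _ _, ?_⟩, ?_⟩
        · intro a ha
          rw [List.mem_cons, List.mem_append, List.mem_singleton] at ha
          rcases ha with rfl | ha | rfl
          · exact hd
          · exact Finset.disjoint_of_subset_left hσ1 (hp2 a ha)
          · exact Finset.disjoint_of_subset_left hσ1 (hdis τ hτT)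
        · intro a ha
          rw [List.mem_append, List.mem_singleton] at ha
          rcases ha with ha | rfl
          · exact Finset.disjoint_of_subset_left hσ2 (hp2 a ha)
          · exact Finset.disjoint_of_subset_left hσ2 (hdis τ hτT)
        · intro a ha b hb
          rw [List.mem_singleton] at hb
          rw [hb]
          exact hdis a (hm2 a ha)
        · intro a ha b hb
          rw [List.mem_cons, List.mem_cons, List.mem_append, List.mem_singleton] at hb
          rcases hb with rfl | rfl | hb | rfl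
          · exact Finset.disjoint_of_subset_right hσ1 (hp4 a ha τ List.mem_cons_self)
          · exact Finset.disjoint_of_subset_right hσ2 (hp4 a ha τ List.mem_cons_self)
          · exact hp4 a ha b (List.mem_cons_of_mem _ hb)
          · exact hdis a (hm1 a ha)
      · exact Att_app (h3.imp hRC) (List.Forall₂.cons (Att_conn hs1 (hσ1.trans h4.2))
          (List.Forall₂.cons (Att_conn hs2 (hσ2.trans h4.2))
            (Att_app (h5.imp hRC) (List.Forall₂.cons hcy List.Forall₂.nil))))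

theorem OL_bound {p : ℝ} (hp0 : 0 ≤ p) (hp : p ≤ 1 / 2) (E : Finset (Sym2 V)) (L : List (Line V))
    (hL : ∀ l ∈ L, l.1 ⊆ E) : Pr p E (OL L) ≤ (L.map fun l => tE p l.1 l.2.1 l.2.2).prod := by
  have h1 := bk_list hp0 hp E (L.map fun l => Ln l.1 l.2.1 l.2.2) (by
    intro A hA
    rw [List.mem_map] at hA
    obtain ⟨l, _, rfl⟩ := hA
    exact Ln_inc _ _ _)
  refine h1.trans (le_of_eq ?_)
  rw [List.map_map]
  congr 1
  refine List.map_congr_left fun l hl => ?_
  show Pr p E (Ln l.1 l.2.1 l.2.2) = Pr p l.1 (fun ω => Conn ω l.2.1 l.2.2)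
  rw [Pr_restrict p (hL l hl) (Ln l.1 l.2.1 l.2.2)]
  · refine Pr_congr p l.1 fun ω hω => ?_
    unfold Ln
    rw [Finset.inter_eq_left.2 hω]
  · intro ω _
    unfold Ln
    rw [Finset.inter_assoc, Finset.inter_self]

end IPC
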