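import Pool.Agent.Lib.MP_25e40f_pr.Defs

/-!
# Stream A, job Bas: calculus of the finite expectation `EE` (about 200 lines)

`EE p E f = ∑ ω ∈ E.powerset, p ^ ω.card * (1 - p) ^ (E \ ω).card * f ω`.
* `EE_insert`: `Finset.powerset_insert`, `sum_union` (disjoint), `sum_image` (`insert b` is injective on sets not containing `b`); for `ω ⊆ E`, `b ∉ E`:
  `(insert b E \ ω) = insert b (E \ ω)`, `(insert b E \ insert b ω) = E \ ω`, cardinalities by `card_insert_of_notMem`.
* `EE_one` by induction on `E` (`Finset.induction_on`), using `EE_insert`.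
* `EE_union`: induction on `E2` with `EE_insert` (for `b ∉ E1 ∪ E2`), or directly by the bijection of `powerset`s.
* `EE_restrict`, `EE_prod` from `EE_union` (write `E = E1 ∪ (E \ E1)`; for `ω₁ ⊆ E1`, `ω₂ ⊆ E2` disjoint: `(ω₁ ∪ ω₂) ∩ E1 = ω₁`).
* `EE_image`: induction on `E`, or `sum_bij`.
* `EE_mono_E`: `E' = E ∪ (E' \ E)`, `EE_union`, `f ω₁ ≤ f (ω₁ ∪ ω₂)`, `EE_one`.
* `EE_mono_p`: induction on `E` for all increasing `f`: `EE p (insert b E) f = p a + (1-p) c` with `a = EE p E (f (insert b ·)) ≥ c = EE p E f`, monotone in `p` (IH for both functions, then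
  `p a_p + (1-p) c_p ≤ p a_q + (1-p) c_q ≤ q a_q + (1-q) c_q`).
* `EE_continuous`: `continuous_finset_sum`, `fun_prop`.
-/

set_option autoImplicit false

noncomputable section

open Finset

namespace IPC

variable {ε ε' : Type} [DecidableEq ε] [DecidableEq ε']

theorem EE_congr (p : ℝ) (E : Finset ε) {f g : Finset ε → ℝ} (h : ∀ ω, ω ⊆ E → f ω = g ω) :
    EE p E f = EE p E g := by
  unfold EE
  refine Finset.sum_congr rfl fun ω hω => ?_
  rw [h ω (Finset.mem_powerset.1 hω)]

theorem EE_empty (p : ℝ) (f : Finset ε → ℝ) : EE p ∅ f = f ∅ := by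
  unfold EE
  rw [Finset.powerset_empty, Finset.sum_singleton, Finset.sdiff_self, Finset.card_empty, pow_zero,
    pow_zero, one_mul, one_mul]

theorem EE_insert (p : ℝ) {E : Finset ε} {b : ε} (hb : b ∉ E) (f : Finset ε → ℝ) :
    EE p (insert b E) f = p * EE p E (fun ω => f (insert b ω)) + (1 - p) * EE p E f := by
  unfold EE
  rw [Finset.sum_powerset_insert hb, add_comm, Finset.mul_sum, Finset.mul_sum]
  refine congrArg₂ (· + ·) ?_ ?_
  · refine Finset.sum_congr rfl fun t ht => ?_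
    have h1 : b ∉ t := fun h => hb (Finset.mem_powerset.1 ht h)
    rw [Finset.card_insert_of_notMem h1, Finset.insert_sdiff_insert,
      Finset.sdiff_insert_of_notMem hb, pow_succ]
    ring
  · refine Finset.sum_congr rfl fun t ht => ?_
    have h1 : b ∉ t := fun h => hb (Finset.mem_powerset.1 ht h)
    have h2 : b ∉ E \ t := fun h => hb (Finset.mem_sdiff.1 h).1
    rw [Finset.insert_sdiff_of_notMem E h1, Finset.card_insert_of_notMem h2, pow_succ]
    ring

theorem EE_add (p : ℝ) (E : Finset ε) (f g : Finset ε → ℝ) :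
    EE p E (fun ω => f ω + g ω) = EE p E f + EE p E g := by
  unfold EE
  rw [← Finset.sum_add_distrib]
  exact Finset.sum_congr rfl fun t _ => by ring

theorem EE_sub (p : ℝ) (E : Finset ε) (f g : Finset ε → ℝ) :
    EE p E (fun ω => f ω - g ω) = EE p E f - EE p E g := by
  unfold EE
  rw [← Finset.sum_sub_distrib]
  exact Finset.sum_congr rfl fun t _ => by ring

theorem EE_const_mul (p : ℝ) (E : Finset ε) (c : ℝ) (f : Finset ε → ℝ) :
    EE p E (fun ω => c * f ω) = c * EE p E f := by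
  unfold EE
  rw [Finset.mul_sum]
  exact Finset.sum_congr rfl fun t _ => by ring

theorem EE_sum {κ : Type} (p : ℝ) (E : Finset ε) (s : Finset κ) (f : κ → Finset ε → ℝ) :
    EE p E (fun ω => ∑ k ∈ s, f k ω) = ∑ k ∈ s, EE p E (f k) := by
  unfold EE
  rw [Finset.sum_comm]
  refine Finset.sum_congr rfl fun t _ => ?_
  rw [Finset.mul_sum]

theorem EE_one (p : ℝ) (E : Finset ε) : EE p E (fun _ => 1) = 1 := by
  induction E using Finset.induction_on with
  | empty => rw [EE_empty]
  | insert b E hb ih =>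
    rw [EE_insert p hb, ih]
    ring

theorem EE_const (p : ℝ) (E : Finset ε) (c : ℝ) : EE p E (fun _ => c) = c := by
  have h := EE_const_mul p E c (fun _ => 1)
  rw [EE_one, mul_one] at h
  exact h

theorem EE_mono {p : ℝ} (hp0 : 0 ≤ p) (hp1 : p ≤ 1) (E : Finset ε) {f g : Finset ε → ℝ}
    (h : ∀ ω, ω ⊆ E → f ω ≤ g ω) : EE p E f ≤ EE p E g := by
  unfold EE
  refine Finset.sum_le_sum fun t ht => ?_
  refine mul_le_mul_of_nonneg_left (h t (Finset.mem_powerset.1 ht)) ?_
  exact mul_nonneg (pow_nonneg hp0 _) (pow_nonneg (by linarith) _)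

theorem EE_nonneg {p : ℝ} (hp0 : 0 ≤ p) (hp1 : p ≤ 1) (E : Finset ε) {f : Finset ε → ℝ}
    (h : ∀ ω, ω ⊆ E → 0 ≤ f ω) : 0 ≤ EE p E f := by
  unfold EE
  refine Finset.sum_nonneg fun t ht => ?_
  refine mul_nonneg ?_ (h t (Finset.mem_powerset.1 ht))
  exact mul_nonneg (pow_nonneg hp0 _) (pow_nonneg (by linarith) _)

theorem EE_union (p : ℝ) {E₁ E₂ : Finset ε} (hd : Disjoint E₁ E₂) (f : Finset ε → ℝ) :
    EE p (E₁ ∪ E₂) f = EE p E₁ (fun ω₁ => EE p E₂ (fun ω₂ => f (ω₁ ∪ ω₂))) := by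
  induction E₂ using Finset.induction_on generalizing f with
  | empty =>
    rw [Finset.union_empty]
    refine EE_congr p E₁ fun ω _ => ?_
    rw [EE_empty, Finset.union_empty]
  | insert b E₂ hb ih =>
    have hb1 : b ∉ E₁ := fun h => (Finset.disjoint_left.1 hd h) (Finset.mem_insert_self b E₂)
    have hd1 : Disjoint E₁ E₂ := Finset.disjoint_of_subset_right (Finset.subset_insert b E₂) hd
    have hb2 : b ∉ E₁ ∪ E₂ := by
      rw [Finset.mem_union]
      rintro (h | h)
      · exact hb1 h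
      · exact hb h
    rw [Finset.union_insert, EE_insert p hb2, ih hd1, ih hd1, ← EE_const_mul, ← EE_const_mul,
      ← EE_add]
    refine EE_congr p E₁ fun ω _ => ?_
    rw [EE_insert p hb]
    simp only [Finset.union_insert]

private theorem Bas_cap {E₁ ω₁ ω₂ : Finset ε} (h1 : ω₁ ⊆ E₁) (h2 : Disjoint E₁ ω₂) :
    (ω₁ ∪ ω₂) ∩ E₁ = ω₁ := by
  ext x
  rw [Finset.mem_inter, Finset.mem_union]
  constructor
  · rintro ⟨h | h, h'⟩
    · exact h
    · exact absurd h (Finset.disjoint_left.1 h2 h')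
  · intro h
    exact ⟨Or.inl h, h1 h⟩

theorem EE_restrict (p : ℝ) {E₁ E : Finset ε} (hE : E₁ ⊆ E) (f : Finset ε → ℝ)
    (h : ∀ ω, ω ⊆ E → f ω = f (ω ∩ E₁)) : EE p E f = EE p E₁ f := by
  have hd : Disjoint E₁ (E \ E₁) := Finset.disjoint_sdiff
  have h1 : EE p E f = EE p (E₁ ∪ (E \ E₁)) f := by
    rw [Finset.union_sdiff_of_subset hE]
  rw [h1, EE_union p hd]
  refine EE_congr p E₁ fun ω hω => ?_
  rw [← EE_const p (E \ E₁) (f ω)]
  refine EE_congr p _ fun ω' hω' => ?_
  rw [h (ω ∪ ω') (Finset.union_subset (hω.trans hE) (hω'.trans Finset.sdiff_subset)),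
    Bas_cap hω (Finset.disjoint_of_subset_right hω' hd)]

theorem EE_prod (p : ℝ) {E₁ E₂ : Finset ε} (hd : Disjoint E₁ E₂) (f g : Finset ε → ℝ) :
    EE p (E₁ ∪ E₂) (fun ω => f (ω ∩ E₁) * g (ω ∩ E₂)) = EE p E₁ f * EE p E₂ g := by
  rw [EE_union p hd, mul_comm, ← EE_const_mul]
  refine EE_congr p E₁ fun ω hω => ?_
  rw [mul_comm, ← EE_const_mul]
  refine EE_congr p E₂ fun ω' hω' => ?_
  rw [Bas_cap hω (Finset.disjoint_of_subset_right hω' hd), Finset.union_comm ω ω',
    Bas_cap hω' (Finset.disjoint_of_subset_right hω hd.symm)]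

theorem EE_image (p : ℝ) (E : Finset ε) (φ : ε → ε') (hφ : Set.InjOn φ (E : Set ε))
    (f : Finset ε' → ℝ) : EE p (E.image φ) f = EE p E (fun ω => f (ω.image φ)) := by
  induction E using Finset.induction_on generalizing f with
  | empty => rw [Finset.image_empty, EE_empty, EE_empty, Finset.image_empty]
  | insert b E hb ih =>
    have h1 : Set.InjOn φ (E : Set ε) := hφ.mono (by
      rw [Finset.coe_insert]
      exact Set.subset_insert _ _)
    have h2 : φ b ∉ E.image φ := by
      intro h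
      obtain ⟨a, ha, hab⟩ := Finset.mem_image.1 h
      have h3 : a = b := hφ (Finset.mem_coe.2 (Finset.mem_insert_of_mem ha))
        (Finset.mem_coe.2 (Finset.mem_insert_self b E)) hab
      exact hb (h3 ▸ ha)
    rw [Finset.image_insert, EE_insert p h2, EE_insert p hb, ih h1, ih h1]
    simp only [Finset.image_insert]

theorem EE_mono_E {p : ℝ} (hp0 : 0 ≤ p) (hp1 : p ≤ 1) {E E' : Finset ε} (hE : E ⊆ E')
    {f : Finset ε → ℝ} (hf : ∀ ω ω', ω ⊆ ω' → f ω ≤ f ω') : EE p E f ≤ EE p E' f := by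
  have hd : Disjoint E (E' \ E) := Finset.disjoint_sdiff
  have h1 : EE p E' f = EE p (E ∪ (E' \ E)) f := by
    rw [Finset.union_sdiff_of_subset hE]
  rw [h1, EE_union p hd]
  refine EE_mono hp0 hp1 E fun ω _ => ?_
  have h2 := EE_const p (E' \ E) (f ω)
  have h3 : EE p (E' \ E) (fun _ => f ω) ≤ EE p (E' \ E) (fun ω' => f (ω ∪ ω')) :=
    EE_mono hp0 hp1 _ fun ω' _ => hf _ _ Finset.subset_union_left
  linarith

theorem EE_mono_p {p q : ℝ} (hp0 : 0 ≤ p) (hpq : p ≤ q) (hq : q ≤ 1) (E : Finset ε)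
    {f : Finset ε → ℝ} (hf : ∀ ω ω', ω ⊆ ω' → f ω ≤ f ω') : EE p E f ≤ EE q E f := by
  induction E using Finset.induction_on generalizing f with
  | empty => rw [EE_empty, EE_empty]
  | insert b E hb ih =>
    have h1 : EE p E (fun ω => f (insert b ω)) ≤ EE q E (fun ω => f (insert b ω)) :=
      ih fun ω ω' h => hf _ _ (Finset.insert_subset_insert b h)
    have h2 : EE p E f ≤ EE q E f := ih hf
    have h3 : EE q E f ≤ EE q E (fun ω => f (insert b ω)) :=
      EE_mono (hp0.trans hpq) hq E fun ω _ => hf _ _ (Finset.subset_insert b ω)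
    rw [EE_insert p hb, EE_insert q hb]
    have h4 : p * EE p E (fun ω => f (insert b ω)) ≤ p * EE q E (fun ω => f (insert b ω)) :=
      mul_le_mul_of_nonneg_left h1 hp0
    have h5 : (1 - p) * EE p E f ≤ (1 - p) * EE q E f :=
      mul_le_mul_of_nonneg_left h2 (by linarith)
    have h6 : (q - p) * EE q E f ≤ (q - p) * EE q E (fun ω => f (insert b ω)) :=
      mul_le_mul_of_nonneg_left h3 (by linarith)
    nlinarith

theorem EE_continuous (E : Finset ε) (f : Finset ε → ℝ) : Continuous (fun p : ℝ => EE p E f) := by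
  unfold EE
  refine continuous_finsetSum _ fun t _ => ?_
  exact ((continuous_id.pow _).mul ((continuous_const.sub continuous_id).pow _)).mul
    continuous_const

end IPC
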