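import Pool.Agent.Lib.MP_25e40f_pr.Defs

/-!
# Stream A, job Cnn: elementary properties of connections (about 200 lines)

`Conn ω x y = ReflTransGen (fun a b => s(a,b) ∈ ω) x y`; the relation is symmetric (`Sym2.eq_swap`).
* `Conn_symm`: `Relation.ReflTransGen.symmetric`.  `Conn_mono`: `ReflTransGen.mono`.
* `touched`: `VV ω` = vertices of the edges.  `Conn_mem_VV`: if `x ≠ y` both are in `VV ω` (induction / `ReflTransGen.cases_head`, `cases_tail`).
* `Conn_last_exit`: induction on the path (`ReflTransGen` induction at the end): `y ∈ X`: take `t = y`.  Otherwise the last edge `s(c, y)` is not inside `X`; the induction hypothesis for `c`.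
* `Conn_closed`: a set `S` of vertices containing `x` and such that no edge of `ω` joins `S` to its complement contains the cluster of `x`.
* `Conn_erase`: deletion of an edge `e = s(w,u)` from a connection `z ↔ w`: induction on the path `z → w'`: claim for all `w'` with `Conn ω z w'`: `Conn (ω.erase e) z w' ∨ Conn (ω.erase e) z w ∨ Conn (ω.erase e) z u`;
  then specialise `w' = w`.
* `Conn_off`: a path which does not meet `A` (formulated with the cluster): if `Conn ω x y` and no vertex of `A` is connected to `x` in `ω`, then `Conn (off ω A) x y`.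
* `Conn_inter`: if every vertex connected to `x` in `ω ∩ E₁` has all its `ω`-edges in `E₁`, then `Conn ω x y ↔ Conn (ω ∩ E₁) x y`.
-/

set_option autoImplicit false

noncomputable section

open Finset
open scoped Classical

namespace IPC

variable {V : Type} [DecidableEq V]

/-- vertices touched by an edge set -/
def VV (ω : Finset (Sym2 V)) : Finset V := ω.biUnion fun e => e.toFinset

theorem mem_VV (ω : Finset (Sym2 V)) (x : V) : x ∈ VV ω ↔ ∃ y, s(x, y) ∈ ω := by
  unfold VV
  rw [Finset.mem_biUnion]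
  constructor
  · rintro ⟨e, he, hx⟩
    rw [Sym2.mem_toFinset] at hx
    obtain ⟨y, rfl⟩ := hx
    exact ⟨y, he⟩
  · rintro ⟨y, hy⟩
    exact ⟨s(x, y), hy, Sym2.mem_toFinset.2 (Sym2.mem_mk_left x y)⟩

theorem Conn_refl (ω : Finset (Sym2 V)) (x : V) : Conn ω x x := Relation.ReflTransGen.refl

theorem Conn_symm {ω : Finset (Sym2 V)} {x y : V} (h : Conn ω x y) : Conn ω y x := by
  unfold Conn at *
  induction h with
  | refl => exact Relation.ReflTransGen.refl
  | tail _ hbc ih =>
    refine Relation.ReflTransGen.head ?_ ih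
    rw [Sym2.eq_swap]
    exact hbc

theorem Conn_trans {ω : Finset (Sym2 V)} {x y z : V} (h : Conn ω x y) (h' : Conn ω y z) :
    Conn ω x z := Relation.ReflTransGen.trans h h'

theorem Conn_edge {ω : Finset (Sym2 V)} {x y : V} (h : s(x, y) ∈ ω) : Conn ω x y :=
  Relation.ReflTransGen.single h

theorem Conn_mono {ω ω' : Finset (Sym2 V)} (h : ω ⊆ ω') {x y : V} (hx : Conn ω x y) :
    Conn ω' x y := by
  unfold Conn at hx
  induction hx with
  | refl => exact Conn_refl _ _
  | tail _ hbc ih => exact Relation.ReflTransGen.tail ih (h hbc)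

theorem Conn_inc (x y : V) : Inc (fun ω : Finset (Sym2 V) => Conn ω x y) :=
  fun _ _ h hx => Conn_mono h hx

theorem Ln_inc (E : Finset (Sym2 V)) (x y : V) : Inc (Ln E x y) := by
  intro ω ω' h hx
  exact Conn_mono (Finset.inter_subset_inter_right h) hx

theorem Conn_mem_VV {ω : Finset (Sym2 V)} {x y : V} (h : Conn ω x y) (hxy : x ≠ y) :
    x ∈ VV ω ∧ y ∈ VV ω := by
  constructor
  · rcases Relation.ReflTransGen.cases_head h with h1 | ⟨c, h1, _⟩
    · exact absurd h1 hxy
    · exact (mem_VV ω x).2 ⟨c, h1⟩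
  · rcases Relation.ReflTransGen.cases_head (Conn_symm h) with h1 | ⟨c, h1, _⟩
    · exact absurd h1.symm hxy
    · exact (mem_VV ω y).2 ⟨c, h1⟩

/-- last exit from `X` -/
theorem Conn_last_exit {ω : Finset (Sym2 V)} {x y : V} (X : Finset V) (hx : x ∈ X)
    (h : Conn ω x y) : ∃ t ∈ X, Conn (ω.filter fun e => ¬ ∀ a ∈ e, a ∈ X) t y := by
  unfold Conn at h
  induction h with
  | refl => exact ⟨x, hx, Conn_refl _ _⟩
  | @tail b c _ hbc ih =>
    obtain ⟨t, ht, h1⟩ := ih
    by_cases hc : c ∈ X
    · exact ⟨c, hc, Conn_refl _ _⟩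
    · refine ⟨t, ht, Relation.ReflTransGen.tail h1 ?_⟩
      rw [Finset.mem_filter]
      exact ⟨hbc, fun h2 => hc (h2 c (Sym2.mem_mk_right b c))⟩

/-- the edge by which a path leaves a set -/
theorem Conn_exit_edge {ω : Finset (Sym2 V)} {x y : V} (X : Set V) (hx : x ∈ X) (hy : y ∉ X)
    (h : Conn ω x y) : ∃ a b, a ∈ X ∧ b ∉ X ∧ s(a, b) ∈ ω ∧
      Conn (ω.filter fun e => ∀ c ∈ e, c ∈ X) x a := by
  have key : (y ∈ X ∧ Conn (ω.filter fun e => ∀ c ∈ e, c ∈ X) x y) ∨
      ∃ a b, a ∈ X ∧ b ∉ X ∧ s(a, b) ∈ ω ∧ Conn (ω.filter fun e => ∀ c ∈ e, c ∈ X) x a := by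
    clear hy
    unfold Conn at h
    induction h with
    | refl => exact Or.inl ⟨hx, Conn_refl _ _⟩
    | @tail b c _ hbc ih =>
      rcases ih with ⟨h1, h2⟩ | h1
      · by_cases hc : c ∈ X
        · left
          refine ⟨hc, Relation.ReflTransGen.tail h2 ?_⟩
          rw [Finset.mem_filter]
          refine ⟨hbc, fun d hd => ?_⟩
          rcases Sym2.mem_iff.1 hd with rfl | rfl
          · exact h1
          · exact hc
        · exact Or.inr ⟨b, c, h1, hc, hbc, h2⟩
      · exact Or.inr h1
  rcases key with ⟨h1, _⟩ | h1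
  · exact absurd h1 hy
  · exact h1

theorem Conn_closed {ω : Finset (Sym2 V)} {x y : V} (S : Set V) (hx : x ∈ S)
    (hS : ∀ a b, s(a, b) ∈ ω → a ∈ S → b ∈ S) (h : Conn ω x y) : y ∈ S := by
  unfold Conn at h
  induction h with
  | refl => exact hx
  | tail _ hbc ih => exact hS _ _ hbc ih

theorem Conn_erase {ω : Finset (Sym2 V)} {z w u : V} (h : Conn ω z w) :
    Conn (ω.erase s(w, u)) z w ∨ Conn (ω.erase s(w, u)) z u := by
  have key : ∀ w', Conn ω z w' → Conn (ω.erase s(w, u)) z w' ∨ Conn (ω.erase s(w, u)) z w ∨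
      Conn (ω.erase s(w, u)) z u := by
    intro w' h'
    unfold Conn at h'
    induction h' with
    | refl => exact Or.inl (Conn_refl _ _)
    | @tail b c _ hbc ih =>
      rcases ih with ih | ih
      · by_cases he : s(b, c) = s(w, u)
        · rcases Sym2.eq_iff.1 he with ⟨rfl, rfl⟩ | ⟨rfl, rfl⟩
          · exact Or.inr (Or.inl ih)
          · exact Or.inr (Or.inr ih)
        · exact Or.inl (Relation.ReflTransGen.tail ih (Finset.mem_erase.2 ⟨he, hbc⟩))
      · exact Or.inr ih
  rcases key w h with h1 | h1 | h1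
  · exact Or.inl h1
  · exact Or.inl h1
  · exact Or.inr h1

/-- adding an edge -/
theorem Conn_insert {ω : Finset (Sym2 V)} {a b x y : V} (h : Conn (insert s(a, b) ω) x y) :
    Conn ω x y ∨ (Conn ω x a ∧ Conn ω b y) ∨ (Conn ω x b ∧ Conn ω a y) := by
  unfold Conn at h
  induction h with
  | refl => exact Or.inl (Conn_refl _ _)
  | @tail c d _ hcd ih =>
    rcases Finset.mem_insert.1 hcd with he | he
    · rcases Sym2.eq_iff.1 he with ⟨rfl, rfl⟩ | ⟨rfl, rfl⟩
      · rcases ih with ih | ih | ih
        · exact Or.inr (Or.inl ⟨ih, Conn_refl _ _⟩)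
        · exact Or.inr (Or.inl ⟨ih.1, Conn_refl _ _⟩)
        · exact Or.inl ih.1
      · rcases ih with ih | ih | ih
        · exact Or.inr (Or.inr ⟨ih, Conn_refl _ _⟩)
        · exact Or.inl ih.1
        · exact Or.inr (Or.inr ⟨ih.1, Conn_refl _ _⟩)
    · rcases ih with ih | ih | ih
      · exact Or.inl (Conn_trans ih (Conn_edge he))
      · exact Or.inr (Or.inl ⟨ih.1, Conn_trans ih.2 (Conn_edge he)⟩)
      · exact Or.inr (Or.inr ⟨ih.1, Conn_trans ih.2 (Conn_edge he)⟩)

theorem Conn_off_of_disjoint {ω : Finset (Sym2 V)} {x y : V} (A : Set V) (h : Conn ω x y)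
    (hA : ∀ a ∈ A, ¬ Conn ω x a) : Conn (off ω A) x y := by
  unfold Conn at h
  induction h with
  | refl => exact Conn_refl _ _
  | @tail b c hb hbc ih =>
    refine Relation.ReflTransGen.tail ih ?_
    unfold off
    rw [Finset.mem_filter]
    refine ⟨hbc, fun d hd hdA => ?_⟩
    rcases Sym2.mem_iff.1 hd with rfl | rfl
    · exact hA _ hdA hb
    · exact hA _ hdA (Relation.ReflTransGen.tail hb hbc)

theorem Conn_of_closed {ω E₁ : Finset (Sym2 V)} {x y : V}
    (h : ∀ a b, Conn (ω ∩ E₁) x a → s(a, b) ∈ ω → s(a, b) ∈ E₁) :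
    Conn ω x y ↔ Conn (ω ∩ E₁) x y := by
  constructor
  · intro h1
    unfold Conn at h1
    induction h1 with
    | refl => exact Conn_refl _ _
    | @tail b c _ hbc ih =>
      exact Relation.ReflTransGen.tail ih (Finset.mem_inter.2 ⟨hbc, h b c ih hbc⟩)
  · exact Conn_mono Finset.inter_subset_left

/-- transport by an injective map -/
theorem Conn_image {V' : Type} [DecidableEq V'] (φ : V → V') (hφ : Function.Injective φ)
    (ω : Finset (Sym2 V)) (x y : V) :
    Conn (ω.image (Sym2.map φ)) (φ x) (φ y) ↔ Conn ω x y := by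
  constructor
  · intro h
    have key : ∀ z, Conn (ω.image (Sym2.map φ)) (φ x) z → ∃ y, z = φ y ∧ Conn ω x y := by
      intro z hz
      unfold Conn at hz
      induction hz with
      | refl => exact ⟨x, rfl, Conn_refl _ _⟩
      | @tail b c _ hbc ih =>
        obtain ⟨t, rfl, ht⟩ := ih
        obtain ⟨e, he, h1⟩ := Finset.mem_image.1 hbc
        induction e using Sym2.ind with
        | _ u v =>
          rw [Sym2.map_mk] at h1
          rcases Sym2.eq_iff.1 h1 with ⟨h2, h3⟩ | ⟨h2, h3⟩
          · have h4 := hφ h2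
            rw [h4] at he
            exact ⟨v, h3.symm, Conn_trans ht (Conn_edge he)⟩
          · have h4 := hφ h3
            rw [h4, Sym2.eq_swap] at he
            exact ⟨u, h2.symm, Conn_trans ht (Conn_edge he)⟩
    obtain ⟨t, h1, h2⟩ := key _ h
    rw [hφ h1]
    exact h2
  · intro h
    unfold Conn at h
    induction h with
    | refl => exact Conn_refl _ _
    | @tail b c _ hbc ih =>
      refine Relation.ReflTransGen.tail ih ?_
      exact Finset.mem_image.2 ⟨s(b, c), hbc, rfl⟩

end IPC
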