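import Pool.Agent.Lib.MP_25e40f_pr.A.Trl

/-!
# Stream A, job Men: Menger's theorem for two paths, from a finite set `F` (about 180 lines)

`CF ω F u`: some vertex of `F` is connected to `u`.  Statement: if `CF (ω.erase e) F u` for all `e`, there are disjoint `ω₁, ω₂ ⊆ ω` with `CF ωᵢ F u`.
Proof by induction on a trail (or path) from `F` to `u`, precisely: prove for all `n` and `u`: if there is a sequence `f = x₀, …, xₙ = u` of edges `s(x_i, x_{i+1}) ∈ ω`, `f ∈ F`, without repeated EDGES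
(formally: `Trail ω' u f` with `ω'.card = n`, `ω' ⊆ ω`; the last vertex before `u` is the first step of the trail from `u`), and `CF (ω.erase e) F u` for all `e`, then the conclusion.
`n = 0`: `u ∈ F`, `ω₁ = ω₂ = ∅`.  Step: `Trail (insert s(u,w) ω'') u f`, `s(u,w) ∉ ω''`, `Trail ω'' w f`; `e = s(u,w)`.
 (1) `CF (ω.erase g) F w` for all `g`: `g = e`: the trail `ω''` avoids `e`.  `g ≠ e`: from `CF (ω.erase g) F u` and `e ∈ ω.erase g` (or `e = g`).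
 (2) induction: disjoint `ω₁, ω₂ ⊆ ω`, `fᵢ ∈ F`, `Conn ωᵢ fᵢ w`; by `exists_trail` we may take trails, so every vertex of `VV ωᵢ` is connected to `fᵢ` in `ωᵢ` (`Trail_touched`).
 (3) If `e ∈ ω₁`: `Conn_erase`: `Conn (ω₁.erase e) f₁ w` (then replace `ω₁` by a trail in `ω₁.erase e`) or `Conn (ω₁.erase e) f₁ u`: then `ω₁.erase e` and `insert e ω₂` are the answer.  The same for `ω₂`.
     So assume `e ∉ ω₁ ∪ ω₂`.
 (4) `CF (ω.erase e) F u`, `X = F ∪ VV ω₁ ∪ VV ω₂`, `Conn_last_exit`: `t ∈ X`, `R = (edges of ω.erase e not inside X)`, `Conn R t u`.  `R` is disjoint from `ω₁`, `ω₂`, `{e}`.  If `t ∈ F`: `R` and `insert e ω₁`.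
     If `t ∈ VV ω₁`: `ω₁ ∪ R` (`f₁ → t → u`) and `insert e ω₂` (`f₂ → w → u`); `t ∈ VV ω₂` symmetric.
-/

set_option autoImplicit false

noncomputable section

open Finset

namespace IPC

variable {V : Type} [DecidableEq V]

private theorem Men_in_VV {ω : Finset (Sym2 V)} {e : Sym2 V} (he : e ∈ ω) : ∀ a ∈ e, a ∈ VV ω := by
  intro a ha
  rw [mem_VV]
  obtain ⟨b, rfl⟩ := Sym2.mem_iff_exists.1 ha
  exact ⟨b, he⟩

private theorem Men_key (ω ω₁ ω₂ : Finset (Sym2 V)) (F : Finset V) (u w f₁ f₂ f₀ : V)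
    (h1 : ω₁ ⊆ ω) (h2 : ω₂ ⊆ ω) (hd : Disjoint ω₁ ω₂) (hf₁ : f₁ ∈ F) (hf₂ : f₂ ∈ F) (hf₀ : f₀ ∈ F)
    (hc₁ : Conn ω₁ f₁ w) (hc₂ : Conn ω₂ f₂ w) (he : s(u, w) ∈ ω) (he₁ : s(u, w) ∉ ω₁)
    (he₂ : s(u, w) ∉ ω₂) (h0 : Conn (ω.erase s(u, w)) f₀ u) :
    ∃ ω₁ ω₂, ω₁ ⊆ ω ∧ ω₂ ⊆ ω ∧ Disjoint ω₁ ω₂ ∧ (∃ f ∈ F, Conn ω₁ f u) ∧ ∃ f ∈ F, Conn ω₂ f u := by
  classical
  obtain ⟨τ₁, ht₁, hT₁⟩ := exists_trail hc₁
  obtain ⟨τ₂, ht₂, hT₂⟩ := exists_trail hc₂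
  have hd' : Disjoint τ₁ τ₂ := Finset.disjoint_of_subset_left ht₁ (Finset.disjoint_of_subset_right ht₂ hd)
  have hn₁ : s(u, w) ∉ τ₁ := fun h => he₁ (ht₁ h)
  have hn₂ : s(u, w) ∉ τ₂ := fun h => he₂ (ht₂ h)
  have hs₁ : τ₁ ⊆ ω := ht₁.trans h1
  have hs₂ : τ₂ ⊆ ω := ht₂.trans h2
  obtain ⟨t, htX, hR⟩ := Conn_last_exit (F ∪ VV τ₁ ∪ VV τ₂)
    (Finset.mem_union_left _ (Finset.mem_union_left _ hf₀)) h0
  set R := (ω.erase s(u, w)).filter fun e => ¬ ∀ a ∈ e, a ∈ F ∪ VV τ₁ ∪ VV τ₂ with hRdef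
  have hRω : R ⊆ ω := (Finset.filter_subset _ _).trans (Finset.erase_subset _ _)
  have hRe : s(u, w) ∉ R := by
    intro h
    exact Finset.notMem_erase _ _ (Finset.mem_of_mem_filter _ h)
  have hR₁ : Disjoint R τ₁ := by
    rw [Finset.disjoint_left]
    intro e heR heτ
    refine (Finset.mem_filter.1 heR).2 fun a ha => ?_
    exact Finset.mem_union_left _ (Finset.mem_union_right _ (Men_in_VV heτ a ha))
  have hR₂ : Disjoint R τ₂ := by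
    rw [Finset.disjoint_left]
    intro e heR heτ
    refine (Finset.mem_filter.1 heR).2 fun a ha => ?_
    exact Finset.mem_union_right _ (Men_in_VV heτ a ha)
  have hadd : ∀ (τ : Finset (Sym2 V)) (f : V), Conn τ f w → Conn (insert s(u, w) τ) f u := by
    intro τ f hf
    refine Conn_trans (Conn_mono (Finset.subset_insert _ _) hf) (Conn_symm (Conn_edge ?_))
    exact Finset.mem_insert_self _ _
  have hins : ∀ τ : Finset (Sym2 V), τ ⊆ ω → insert s(u, w) τ ⊆ ω := by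
    intro τ hτ
    exact Finset.insert_subset he hτ
  rcases Finset.mem_union.1 htX with h | h
  · rcases Finset.mem_union.1 h with h | h
    · refine ⟨R, insert s(u, w) τ₁, hRω, hins _ hs₁, ?_, ⟨t, h, hR⟩, ⟨f₁, hf₁, hadd _ _ (Trail_conn hT₁)⟩⟩
      rw [Finset.disjoint_insert_right]
      exact ⟨hRe, hR₁⟩
    · refine ⟨τ₁ ∪ R, insert s(u, w) τ₂, Finset.union_subset hs₁ hRω, hins _ hs₂, ?_,
        ⟨f₁, hf₁, Conn_trans (Conn_mono Finset.subset_union_left (Trail_touched hT₁ h))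
          (Conn_mono Finset.subset_union_right hR)⟩, ⟨f₂, hf₂, hadd _ _ (Trail_conn hT₂)⟩⟩
      rw [Finset.disjoint_insert_right, Finset.disjoint_union_left]
      refine ⟨?_, hd', hR₂⟩
      rw [Finset.mem_union]
      rintro (h' | h')
      · exact hn₁ h'
      · exact hRe h'
  · refine ⟨τ₂ ∪ R, insert s(u, w) τ₁, Finset.union_subset hs₂ hRω, hins _ hs₁, ?_,
        ⟨f₂, hf₂, Conn_trans (Conn_mono Finset.subset_union_left (Trail_touched hT₂ h))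
          (Conn_mono Finset.subset_union_right hR)⟩, ⟨f₁, hf₁, hadd _ _ (Trail_conn hT₁)⟩⟩
    rw [Finset.disjoint_insert_right, Finset.disjoint_union_left]
    refine ⟨?_, hd'.symm, hR₁⟩
    rw [Finset.mem_union]
    rintro (h' | h')
    · exact hn₂ h'
    · exact hRe h'

/-- the case that the edge belongs to the first set -/
private theorem Men_left (ω ω₁ ω₂ : Finset (Sym2 V)) (F : Finset V) (u w f₁ f₂ f₀ : V)
    (h1 : ω₁ ⊆ ω) (h2 : ω₂ ⊆ ω) (hd : Disjoint ω₁ ω₂) (hf₁ : f₁ ∈ F) (hf₂ : f₂ ∈ F) (hf₀ : f₀ ∈ F)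
    (hc₁ : Conn ω₁ f₁ w) (hc₂ : Conn ω₂ f₂ w) (he : s(u, w) ∈ ω) (he₁ : s(u, w) ∈ ω₁)
    (h0 : Conn (ω.erase s(u, w)) f₀ u) :
    ∃ ω₁ ω₂, ω₁ ⊆ ω ∧ ω₂ ⊆ ω ∧ Disjoint ω₁ ω₂ ∧ (∃ f ∈ F, Conn ω₁ f u) ∧ ∃ f ∈ F, Conn ω₂ f u := by
  have hd' : Disjoint (ω₁.erase s(u, w)) ω₂ :=
    Finset.disjoint_of_subset_left (Finset.erase_subset _ _) hd
  have he₂ : s(u, w) ∉ ω₂ := fun h => Finset.disjoint_left.1 hd he₁ h
  have hsw : s(w, u) = s(u, w) := Sym2.eq_swap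
  rcases Conn_erase (u := u) hc₁ with h | h
  · rw [hsw] at h
    exact Men_key ω (ω₁.erase s(u, w)) ω₂ F u w f₁ f₂ f₀ ((Finset.erase_subset _ _).trans h1) h2 hd'
      hf₁ hf₂ hf₀ h hc₂ he (Finset.notMem_erase _ _) he₂ h0
  · rw [hsw] at h
    refine ⟨ω₁.erase s(u, w), insert s(u, w) ω₂, (Finset.erase_subset _ _).trans h1,
      Finset.insert_subset he h2, ?_, ⟨f₁, hf₁, h⟩, ⟨f₂, hf₂, ?_⟩⟩
    · rw [Finset.disjoint_insert_right]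
      exact ⟨Finset.notMem_erase _ _, hd'⟩
    · exact Conn_trans (Conn_mono (Finset.subset_insert _ _) hc₂)
        (Conn_symm (Conn_edge (Finset.mem_insert_self _ _)))

private theorem Men_trail (ω : Finset (Sym2 V)) (F : Finset V) {ω' : Finset (Sym2 V)} {u f : V}
    (ht : Trail ω' u f) (hf : f ∈ F) (hsub : ω' ⊆ ω)
    (h : ∀ e ∈ ω, ∃ f ∈ F, Conn (ω.erase e) f u) :
    ∃ ω₁ ω₂, ω₁ ⊆ ω ∧ ω₂ ⊆ ω ∧ Disjoint ω₁ ω₂ ∧ (∃ f ∈ F, Conn ω₁ f u) ∧ ∃ f ∈ F, Conn ω₂ f u := by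
  induction ht with
  | nil x =>
    exact ⟨∅, ∅, Finset.empty_subset _, Finset.empty_subset _, Finset.disjoint_empty_left _,
      ⟨x, hf, Conn_refl _ _⟩, ⟨x, hf, Conn_refl _ _⟩⟩
  | cons x y z ω'' hxy t ih =>
    have he : s(x, y) ∈ ω := hsub (Finset.mem_insert_self _ _)
    have hs'' : ω'' ⊆ ω := (Finset.subset_insert _ _).trans hsub
    have h1 : ∀ e ∈ ω, ∃ f ∈ F, Conn (ω.erase e) f y := by
      intro g hg
      by_cases hge : g = s(x, y)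
      · refine ⟨z, hf, Conn_symm (Conn_mono ?_ (Trail_conn t))⟩
        intro e' he'
        rw [Finset.mem_erase]
        refine ⟨?_, hs'' he'⟩
        rintro rfl
        rw [hge] at he'
        exact hxy he'
      · obtain ⟨f, hfF, hfx⟩ := h g hg
        refine ⟨f, hfF, Conn_trans hfx (Conn_edge ?_)⟩
        rw [Finset.mem_erase]
        exact ⟨fun h => hge h.symm, he⟩
    obtain ⟨ω₁, ω₂, hω₁, hω₂, hd, ⟨f₁, hf₁, hc₁⟩, ⟨f₂, hf₂, hc₂⟩⟩ := ih hf hs'' h1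
    obtain ⟨f₀, hf₀, h0⟩ := h _ he
    by_cases he₁ : s(x, y) ∈ ω₁
    · exact Men_left ω ω₁ ω₂ F x y f₁ f₂ f₀ hω₁ hω₂ hd hf₁ hf₂ hf₀ hc₁ hc₂ he he₁ h0
    · by_cases he₂ : s(x, y) ∈ ω₂
      · exact Men_left ω ω₂ ω₁ F x y f₂ f₁ f₀ hω₂ hω₁ hd.symm hf₂ hf₁ hf₀ hc₂ hc₁ he he₂ h0
      · exact Men_key ω ω₁ ω₂ F x y f₁ f₂ f₀ hω₁ hω₂ hd hf₁ hf₂ hf₀ hc₁ hc₂ he he₁ he₂ h0

theorem menger_two (ω : Finset (Sym2 V)) (F : Finset V) (u : V) (h0 : ∃ f ∈ F, Conn ω f u)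
    (h : ∀ e ∈ ω, ∃ f ∈ F, Conn (ω.erase e) f u) :
    ∃ ω₁ ω₂, ω₁ ⊆ ω ∧ ω₂ ⊆ ω ∧ Disjoint ω₁ ω₂ ∧ (∃ f ∈ F, Conn ω₁ f u) ∧ ∃ f ∈ F, Conn ω₂ f u := by
  obtain ⟨f, hf, hc⟩ := h0
  obtain ⟨ω', hω', ht⟩ := exists_trail (Conn_symm hc)
  exact Men_trail ω F ht hf hω' h

end IPC
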