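import Pool.Agent.Lib.MP_25e40f_pr.A.Prb

/-!
# Stream A, job Occ: disjoint occurrence of a list of events (about 120 lines)

`Occ [] ω = True`, `Occ (A :: L) ω = ∃ ω₁ ⊆ ω, A ω₁ ∧ Occ L (ω \ ω₁)`.
* `Occ_mono`: by induction on the list (`ω ⊆ ω'`: the same `ω₁`, `ω \ ω₁ ⊆ ω' \ ω₁`).  No hypothesis on the events is needed.
* `Occ_append`: by induction on `L₁`; from `ω₁ ⊆ ω`, `A ω₁`, `ω₂ ⊆ ω \ ω₁`: take `ω₁ ∪ ω₂`; `(ω₁ ∪ ω₂) \ ω₁ = ω₂` and `ω \ (ω₁ ∪ ω₂) = (ω \ ω₁) \ ω₂`.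
* `Occ_swap`: exchange of two consecutive events: `ω₁`, `ω₂ ⊆ ω \ ω₁`; then `ω₂ ⊆ ω`, `ω₁ ⊆ ω \ ω₂`, `(ω \ ω₁) \ ω₂ = (ω \ ω₂) \ ω₁`.
* `Occ_perm`: `List.Perm` induction.
* `Occ_weaken`: replace events by larger ones.
-/

set_option autoImplicit false

noncomputable section

open Finset

namespace IPC

variable {ε : Type} [DecidableEq ε]

theorem Occ_mono (L : List (Finset ε → Prop)) : Inc (Occ L) := by
  induction L with
  | nil =>
    intro ω ω' _ _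
    trivial
  | cons A L ih =>
    rintro ω ω' h ⟨ω₁, h1, h2, h3⟩
    exact ⟨ω₁, h1.trans h, h2, ih _ _ (Finset.sdiff_subset_sdiff h (Finset.Subset.refl _)) h3⟩

theorem Occ_append (L₁ L₂ : List (Finset ε → Prop)) (ω : Finset ε) :
    Occ (L₁ ++ L₂) ω ↔ ∃ ω₁, ω₁ ⊆ ω ∧ Occ L₁ ω₁ ∧ Occ L₂ (ω \ ω₁) := by
  induction L₁ generalizing ω with
  | nil =>
    constructor
    · intro h
      refine ⟨∅, Finset.empty_subset _, trivial, ?_⟩
      rw [Finset.sdiff_empty]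
      exact h
    · rintro ⟨ω₁, _, _, h⟩
      exact Occ_mono L₂ _ _ Finset.sdiff_subset h
  | cons A L ih =>
    constructor
    · rintro ⟨ω₁, h1, h2, h3⟩
      obtain ⟨ω₂, h4, h5, h6⟩ := (ih _).1 h3
      refine ⟨ω₁ ∪ ω₂, Finset.union_subset h1 (h4.trans Finset.sdiff_subset),
        ⟨ω₁, Finset.subset_union_left, h2, ?_⟩, ?_⟩
      · refine Occ_mono L _ _ ?_ h5
        intro x hx
        have h7 := h4 hx
        rw [Finset.mem_sdiff] at h7
        rw [Finset.mem_sdiff]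
        exact ⟨Finset.mem_union_right _ hx, h7.2⟩
      · refine Occ_mono L₂ _ _ ?_ h6
        intro x hx
        rw [Finset.mem_sdiff, Finset.mem_sdiff] at hx
        rw [Finset.mem_sdiff, Finset.mem_union]
        exact ⟨hx.1.1, fun h7 => h7.elim hx.1.2 hx.2⟩
    · rintro ⟨ω₀, h1, ⟨ω₁, h2, h3, h4⟩, h5⟩
      refine ⟨ω₁, h2.trans h1, h3, (ih _).2 ⟨ω₀ \ ω₁,
        Finset.sdiff_subset_sdiff h1 (Finset.Subset.refl _), h4, ?_⟩⟩
      refine Occ_mono L₂ _ _ ?_ h5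
      intro x hx
      rw [Finset.mem_sdiff] at hx
      rw [Finset.mem_sdiff, Finset.mem_sdiff, Finset.mem_sdiff]
      exact ⟨⟨hx.1, fun h6 => hx.2 (h2 h6)⟩, fun h6 => hx.2 h6.1⟩

theorem Occ_swap (A B : Finset ε → Prop) (L : List (Finset ε → Prop)) (ω : Finset ε)
    (h : Occ (A :: B :: L) ω) : Occ (B :: A :: L) ω := by
  obtain ⟨ω₁, h1, h2, ω₂, h3, h4, h5⟩ := h
  refine ⟨ω₂, h3.trans Finset.sdiff_subset, h4, ω₁, ?_, h2, ?_⟩
  · intro x hx
    rw [Finset.mem_sdiff]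
    refine ⟨h1 hx, fun h6 => ?_⟩
    have h7 := h3 h6
    rw [Finset.mem_sdiff] at h7
    exact h7.2 hx
  · rw [sdiff_right_comm]
    exact h5

theorem Occ_perm {L L' : List (Finset ε → Prop)} (h : L.Perm L') (ω : Finset ε) :
    Occ L ω ↔ Occ L' ω := by
  induction h generalizing ω with
  | nil => exact Iff.rfl
  | cons A _ ih =>
    constructor
    · rintro ⟨ω₁, h1, h2, h3⟩
      exact ⟨ω₁, h1, h2, (ih _).1 h3⟩
    · rintro ⟨ω₁, h1, h2, h3⟩
      exact ⟨ω₁, h1, h2, (ih _).2 h3⟩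
  | swap A B L => exact ⟨Occ_swap _ _ _ _, Occ_swap _ _ _ _⟩
  | trans _ _ ih1 ih2 => exact (ih1 ω).trans (ih2 ω)

theorem Occ_weaken {L L' : List (Finset ε → Prop)}
    (h : List.Forall₂ (fun A B => ∀ ω, A ω → B ω) L L') (ω : Finset ε) (hω : Occ L ω) :
    Occ L' ω := by
  induction h generalizing ω with
  | nil => exact trivial
  | cons hAB _ ih =>
    obtain ⟨ω₁, h1, h2, h3⟩ := hω
    exact ⟨ω₁, h1, hAB _ h2, ih _ h3⟩

theorem Occ_one (A : Finset ε → Prop) (hA : Inc A) (ω : Finset ε) : Occ [A] ω ↔ A ω := by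
  constructor
  · rintro ⟨ω₁, h1, h2, _⟩
    exact hA _ _ h1 h2
  · intro h
    exact ⟨ω, Finset.Subset.refl _, h, trivial⟩

/-- two disjoint witnesses -/
theorem Occ_two (A B : Finset ε → Prop) (ω : Finset ε) (hB : Inc B) :
    Occ [A, B] ω ↔ ∃ ω₁ ω₂, ω₁ ⊆ ω ∧ ω₂ ⊆ ω ∧ Disjoint ω₁ ω₂ ∧ A ω₁ ∧ B ω₂ := by
  constructor
  · rintro ⟨ω₁, h1, h2, h3⟩
    have h4 := (Occ_one B hB _).1 h3
    exact ⟨ω₁, ω \ ω₁, h1, Finset.sdiff_subset, Finset.disjoint_sdiff, h2, h4⟩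
  · rintro ⟨ω₁, ω₂, h1, h2, h3, h4, h5⟩
    refine ⟨ω₁, h1, h4, (Occ_one B hB _).2 (hB ω₂ _ ?_ h5)⟩
    intro x hx
    rw [Finset.mem_sdiff]
    exact ⟨h2 hx, fun h6 => (Finset.disjoint_left.1 h3 h6) hx⟩

/-- pairwise disjoint witnesses indexed by the list -/
theorem Occ_of_witness (L : List (Finset ε → Prop)) (ω : Finset ε) (W : List (Finset ε))
    (hlen : W.length = L.length) (hsub : ∀ w ∈ W, w ⊆ ω) (hpd : W.Pairwise Disjoint)
    (hA : List.Forall₂ (fun A w => A w) L W) : Occ L ω := by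
  clear hlen
  induction hA generalizing ω with
  | nil => exact trivial
  | cons hAw _ ih =>
    rename_i A w L' W' _
    rw [List.pairwise_cons] at hpd
    refine ⟨w, hsub w List.mem_cons_self, hAw, ih _ (fun w' hw' x hx => ?_) hpd.2⟩
    rw [Finset.mem_sdiff]
    exact ⟨hsub w' (List.mem_cons_of_mem _ hw') hx,
      fun h6 => (Finset.disjoint_left.1 (hpd.1 w' hw') h6) hx⟩

/-- the converse -/
theorem Occ_witness (L : List (Finset ε → Prop)) (ω : Finset ε) (h : Occ L ω) :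
    ∃ W : List (Finset ε), W.length = L.length ∧ (∀ w ∈ W, w ⊆ ω) ∧ W.Pairwise Disjoint ∧
      List.Forall₂ (fun A w => A w) L W := by
  induction L generalizing ω with
  | nil => exact ⟨[], rfl, fun w hw => absurd hw List.not_mem_nil, List.Pairwise.nil, List.Forall₂.nil⟩
  | cons A L ih =>
    obtain ⟨ω₁, h1, h2, h3⟩ := h
    obtain ⟨W, hW1, hW2, hW3, hW4⟩ := ih _ h3
    refine ⟨ω₁ :: W, by rw [List.length_cons, List.length_cons, hW1], ?_, ?_,
      List.Forall₂.cons h2 hW4⟩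
    · intro w hw
      rcases List.mem_cons.1 hw with rfl | hw
      · exact h1
      · exact (hW2 w hw).trans Finset.sdiff_subset
    · rw [List.pairwise_cons]
      refine ⟨fun w hw => ?_, hW3⟩
      rw [Finset.disjoint_left]
      intro x hx hx'
      have h4 := hW2 w hw hx'
      rw [Finset.mem_sdiff] at h4
      exact h4.2 hx

end IPC
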