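import Pool.Agent.Lib.MP_25e40f_pr.A.Cnn

/-!
# Stream A, job Trl: trails (about 130 lines)

* `Trail_conn`: induction.
* `exists_trail`: for a connection choose a set `ω' ⊆ ω` with `Conn ω' x y` of minimal cardinality (well founded), or prove by strong induction on `ω.card`, generalising `x`: if `x = y` take `∅`.
  Otherwise (`ReflTransGen.cases_head`) there is `s(x,c) ∈ ω` with `Conn ω c y`; claim: some neighbour `c` of `x` satisfies `Conn (ω.filter (x ∉ ·)) c y` (LAST EXIT with `X = {x}`: `t = x`, edges not inside `{x}`, hmm: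
  use `Conn_last_exit` with `X = {x}`: `Conn (edges that are not the loop at x) x y`; simplest is minimality: let `ω' ⊆ ω` be minimal with `Conn ω' x y`, `s(x,c) ∈ ω'` the first edge of a connection;
  by `Conn_erase` applied to `Conn ω' y x` and the edge `s(x,c)`: `Conn (ω'.erase s(x,c)) y x ∨ Conn (ω'.erase s(x,c)) y c`; the first contradicts minimality, so `Conn (ω'.erase s(x,c)) c y`, and by induction
  a trail `ω'' ⊆ ω'.erase s(x,c)` from `c` to `y`; `Trail.cons`).
* `Trail_split`: induction on the trail: `t = x`: `ω₁ = ∅`.  Otherwise `t ∈ VV (insert s(x,y) ω)`, `t ≠ x`: `t = y` or `t ∈ VV ω`, apply the induction hypothesis to the trail from `y`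
  (`t = y` or `t ∈ VV ω`), and put `s(x,y)` in the first part.
* `Trail_edges_conn`: every touched vertex is connected to `x` in `ω`.
-/

set_option autoImplicit false

noncomputable section

open Finset

namespace IPC

variable {V : Type} [DecidableEq V]

theorem Trail_conn {ω : Finset (Sym2 V)} {x y : V} (h : Trail ω x y) : Conn ω x y := by
  induction h with
  | nil x => exact Conn_refl _ _
  | cons x y z ω hn t ih =>
    exact Conn_trans (Conn_edge (Finset.mem_insert_self _ _)) (Conn_mono (Finset.subset_insert _ _) ih)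

private theorem Trl_exists_aux (y : V) : ∀ (n : ℕ) (ω : Finset (Sym2 V)) (x : V), ω.card = n →
    Conn ω x y → ∃ ω', ω' ⊆ ω ∧ Trail ω' x y := by
  intro n
  induction n using Nat.strong_induction_on with
  | _ n ih =>
    intro ω x hn h
    by_cases hxy : x = y
    · subst hxy
      exact ⟨∅, Finset.empty_subset _, Trail.nil _⟩
    rcases Relation.ReflTransGen.cases_head h with h1 | ⟨c, hc, _⟩
    · exact absurd h1 hxy
    have hlt : (ω.erase s(x, c)).card < n := by
      rw [← hn]
      exact Finset.card_erase_lt_of_mem hc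
    rcases Conn_erase (u := c) (Conn_symm h) with h2 | h2
    · obtain ⟨ω', h3, h4⟩ := ih _ hlt _ x rfl (Conn_symm h2)
      exact ⟨ω', h3.trans (Finset.erase_subset _ _), h4⟩
    · obtain ⟨ω', h3, h4⟩ := ih _ hlt _ c rfl (Conn_symm h2)
      refine ⟨insert s(x, c) ω', ?_, Trail.cons x c y ω' ?_ h4⟩
      · intro e he
        rcases Finset.mem_insert.1 he with rfl | he
        · exact hc
        · exact Finset.mem_of_mem_erase (h3 he)
      · intro he
        exact absurd rfl (Finset.ne_of_mem_erase (h3 he))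

theorem exists_trail {ω : Finset (Sym2 V)} {x y : V} (h : Conn ω x y) :
    ∃ ω', ω' ⊆ ω ∧ Trail ω' x y :=
  Trl_exists_aux y _ ω x rfl h

theorem Trail_split {ω : Finset (Sym2 V)} {x y t : V} (h : Trail ω x y)
    (ht : t = x ∨ t = y ∨ t ∈ VV ω) :
    ∃ ω₁ ω₂, Disjoint ω₁ ω₂ ∧ ω₁ ∪ ω₂ = ω ∧ Trail ω₁ x t ∧ Trail ω₂ t y := by
  induction h with
  | nil x =>
    have h1 : t = x := by
      rcases ht with h1 | h1 | h1
      · exact h1
      · exact h1
      · rw [mem_VV] at h1
        obtain ⟨w, hw⟩ := h1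
        exact absurd hw (Finset.notMem_empty _)
    subst h1
    exact ⟨∅, ∅, Finset.disjoint_empty_left _, Finset.union_empty _, Trail.nil _, Trail.nil _⟩
  | cons x y z ω hn tr ih =>
    by_cases htx : t = x
    · subst htx
      exact ⟨∅, _, Finset.disjoint_empty_left _, Finset.empty_union _, Trail.nil _,
        Trail.cons _ y z ω hn tr⟩
    have h1 : t = y ∨ t = z ∨ t ∈ VV ω := by
      rcases ht with h1 | h1 | h1
      · exact absurd h1 htx
      · exact Or.inr (Or.inl h1)
      · rw [mem_VV] at h1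
        obtain ⟨w, hw⟩ := h1
        rcases Finset.mem_insert.1 hw with h2 | h2
        · rcases Sym2.eq_iff.1 h2 with ⟨h3, _⟩ | ⟨h3, _⟩
          · exact absurd h3 htx
          · exact Or.inl h3
        · exact Or.inr (Or.inr ((mem_VV _ _).2 ⟨w, h2⟩))
    obtain ⟨ω₁, ω₂, hd, hu, t1, t2⟩ := ih h1
    have hn1 : s(x, y) ∉ ω₁ := fun h => hn (hu ▸ Finset.mem_union_left _ h)
    have hn2 : s(x, y) ∉ ω₂ := fun h => hn (hu ▸ Finset.mem_union_right _ h)
    refine ⟨insert s(x, y) ω₁, ω₂, ?_, ?_, Trail.cons x y t ω₁ hn1 t1, t2⟩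
    · rw [Finset.disjoint_insert_left]
      exact ⟨hn2, hd⟩
    · rw [Finset.insert_union, hu]

theorem Trail_touched {ω : Finset (Sym2 V)} {x y t : V} (h : Trail ω x y) (ht : t ∈ VV ω) :
    Conn ω x t := by
  obtain ⟨ω₁, ω₂, _, hu, t1, _⟩ := Trail_split h (Or.inr (Or.inr ht))
  exact Conn_mono (hu ▸ Finset.subset_union_left) (Trail_conn t1)

end IPC
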